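import Pool.Agent.Lib_MP_25630e_an.Basic

/-!
# Real continuous functions are almost real parts of polynomials on the circle
-/

set_option autoImplicit false

open Complex MeasureTheory intervalIntegral Set
open scoped ComplexConjugate

namespace Pool.Littlewood

instance : Fact (0 < (1 : ℝ)) := ⟨one_pos⟩

lemma fourier_eq_e (n : ℤ) (x : ℝ) : fourier n (x : AddCircle (1 : ℝ)) = e n x := by
  rw [fourier_coe_apply, e]
  congr 1
  push_cast
  ring

/-- The real part of `g` is the real part of an entire function on the circle. -/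
def IsRe (g : C(AddCircle (1 : ℝ), ℂ)) : Prop :=
  ∃ P : ℂ → ℂ, Differentiable ℂ P ∧ (P 0).im = 0 ∧
    ∀ x : ℝ, (g (x : AddCircle (1 : ℝ))).re = (P (e 1 x)).re

lemma IsRe.zero : IsRe 0 := ⟨fun _ => 0, by fun_prop, by simp, by simp⟩

lemma IsRe.add {g h : C(AddCircle (1 : ℝ), ℂ)} (hg : IsRe g) (hh : IsRe h) : IsRe (g + h) := by
  obtain ⟨P, hP, hP0, hPe⟩ := hg
  obtain ⟨Q, hQ, hQ0, hQe⟩ := hh
  refine ⟨fun z => P z + Q z, by fun_prop, by simp [hP0, hQ0], fun x => ?_⟩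
  simp [hPe x, hQe x]

lemma IsRe.smul_fourier (c : ℂ) (n : ℤ) : IsRe (c • (fourier n : C(AddCircle (1 : ℝ), ℂ))) := by
  rcases lt_trichotomy n 0 with h | h | h
  · obtain ⟨k, hk⟩ : ∃ k : ℕ, n = -(k : ℤ) := ⟨(-n).toNat, by omega⟩
    have hk0 : k ≠ 0 := by omega
    refine ⟨fun z => conj c * z ^ k, by fun_prop, by simp [hk0], fun x => ?_⟩
    have h1 : (c • (fourier n : C(AddCircle (1 : ℝ), ℂ))) (x : AddCircle (1 : ℝ))
        = c * e n x := by
      rw [← fourier_eq_e]; rfl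
    rw [h1, hk, ← conj_e, e_nat]
    have h2 : conj c * (e 1 x) ^ k = conj (c * conj ((e 1 x) ^ k)) := by simp
    show _ = (conj c * (e 1 x) ^ k).re
    rw [h2, Complex.conj_re]
  · subst h
    refine ⟨fun _ => (c.re : ℂ), by fun_prop, by simp, fun x => ?_⟩
    simp
  · obtain ⟨k, hk⟩ : ∃ k : ℕ, n = (k : ℤ) := ⟨n.toNat, by omega⟩
    have hk0 : k ≠ 0 := by omega
    refine ⟨fun z => c * z ^ k, by fun_prop, by simp [hk0], fun x => ?_⟩
    have h1 : (c • (fourier n : C(AddCircle (1 : ℝ), ℂ))) (x : AddCircle (1 : ℝ))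
        = c * e n x := by
      rw [← fourier_eq_e]; rfl
    rw [h1, hk, e_nat]

lemma isRe_of_mem_span {g : C(AddCircle (1 : ℝ), ℂ)}
    (hg : g ∈ Submodule.span ℂ (range (fourier : ℤ → C(AddCircle (1 : ℝ), ℂ)))) : IsRe g := by
  rw [Finsupp.mem_span_range_iff_exists_finsupp] at hg
  obtain ⟨c, rfl⟩ := hg
  rw [Finsupp.sum]
  exact Finset.sum_induction _ IsRe (fun _ _ => IsRe.add) IsRe.zero
    (fun n _ => IsRe.smul_fourier _ _)

/-- Approximation from above. -/
lemma exists_re_approx {u : ℝ → ℝ} (hu : Continuous u) (hper : ∀ x, u (x + 1) = u x) {ε : ℝ}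
    (hε : 0 < ε) :
    ∃ P : ℂ → ℂ, Differentiable ℂ P ∧ (P 0).im = 0 ∧
      ∀ x : ℝ, u x ≤ (P (e 1 x)).re ∧ (P (e 1 x)).re ≤ u x + ε := by
  have hp : Function.Periodic (fun x => (u x : ℂ)) (1 : ℝ) := by
    intro x; simp [hper x]
  have hcont : Continuous (hp.lift) := by
    apply continuous_coinduced_dom.mpr
    have h0 : Continuous (fun x : ℝ => (u x : ℂ)) := by fun_prop
    exact h0
  let f : C(AddCircle (1 : ℝ), ℂ) := ⟨hp.lift, hcont⟩
  have hf : ∀ x : ℝ, f (x : AddCircle (1 : ℝ)) = (u x : ℂ) := fun x => hp.lift_coe x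
  have hmem : f ∈ closure ((Submodule.span ℂ
      (range (fourier : ℤ → C(AddCircle (1 : ℝ), ℂ))) : Submodule ℂ _) :
        Set C(AddCircle (1 : ℝ), ℂ)) := by
    have h1 := span_fourier_closure_eq_top (T := (1 : ℝ))
    have h2 : f ∈ (Submodule.span ℂ
      (range (fourier : ℤ → C(AddCircle (1 : ℝ), ℂ)))).topologicalClosure := by
      rw [h1]; trivial
    exact h2
  obtain ⟨g, hg, hfg⟩ := Metric.mem_closure_iff.1 hmem (ε / 2) (by positivity)
  obtain ⟨P, hP, hP0, hPe⟩ := isRe_of_mem_span hg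
  refine ⟨fun z => P z + ((ε / 2 : ℝ) : ℂ), by fun_prop, by simp [hP0], fun x => ?_⟩
  have h1 : ‖f (x : AddCircle (1 : ℝ)) - g (x : AddCircle (1 : ℝ))‖ < ε / 2 := by
    have := (ContinuousMap.norm_coe_le_norm (f - g) (x : AddCircle (1 : ℝ)))
    rw [dist_eq_norm] at hfg
    exact lt_of_le_of_lt (by simpa using this) hfg
  have h2 : |u x - (P (e 1 x)).re| < ε / 2 := by
    rw [← hPe x]
    have h3 := (Complex.abs_re_le_norm (f (x : AddCircle (1 : ℝ)) - g (x : AddCircle (1 : ℝ))))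
    rw [Complex.sub_re, hf x, Complex.ofReal_re] at h3
    rw [hf x] at h1
    exact lt_of_le_of_lt h3 h1
  rw [abs_lt] at h2
  simp only [Complex.add_re, Complex.ofReal_re]
  constructor <;> linarith [h2.1, h2.2]

end Pool.Littlewood
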