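import Mathlib

/-!
# Exponentials on the circle, the mean value property and an `L²` seminorm

Preparations for a lower bound for the `L¹` norm of an exponential sum.
-/

set_option autoImplicit false

open Complex MeasureTheory intervalIntegral Set
open scoped ComplexConjugate

namespace Pool.Littlewood

/-- `e n x = exp (2 π i n x)`. -/
noncomputable def e (n : ℤ) (x : ℝ) : ℂ :=
  Complex.exp (2 * (Real.pi : ℂ) * Complex.I * (n : ℂ) * (x : ℂ))

@[fun_prop]
lemma e_continuous (n : ℤ) : Continuous (e n) := by unfold e; fun_prop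

lemma e_zero (x : ℝ) : e 0 x = 1 := by simp [e]

lemma e_add (m n : ℤ) (x : ℝ) : e (m + n) x = e m x * e n x := by
  rw [e, e, e, ← Complex.exp_add]; congr 1; push_cast; ring

lemma norm_e (n : ℤ) (x : ℝ) : ‖e n x‖ = 1 := by
  rw [e, show 2 * (Real.pi : ℂ) * I * n * x = ((2 * Real.pi * n * x : ℝ) : ℂ) * I by
    push_cast; ring, Complex.norm_exp_ofReal_mul_I]

lemma conj_e (n : ℤ) (x : ℝ) : conj (e n x) = e (-n) x := by
  rw [e, e, ← Complex.exp_conj]
  congr 1
  have h2 : (starRingEnd ℂ) 2 = 2 := by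
    have := Complex.conj_ofReal 2
    simpa using this
  simp [h2]

lemma e_nat (n : ℕ) (x : ℝ) : e n x = (e 1 x) ^ n := by
  rw [e, e, ← Complex.exp_nat_mul]; congr 1; push_cast; ring

lemma e_periodic (n : ℤ) (x : ℝ) : e n (x + 1) = e n x := by
  rw [e, e, Complex.exp_eq_exp_iff_exists_int]
  exact ⟨n, by push_cast; ring⟩

/-- Mean value property for entire functions on the unit circle. -/
lemma mv {Φ : ℂ → ℂ} (hΦ : Differentiable ℂ Φ) : ∫ x in (0:ℝ)..1, Φ (e 1 x) = Φ 0 := by
  have h := DiffContOnCl.circleAverage (c := 0) (R := 1) (f := Φ) (hΦ.diffContOnCl)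
  rw [Real.circleAverage] at h
  have h2 := intervalIntegral.integral_comp_mul_left (a := 0) (b := 1)
    (fun θ => Φ (circleMap 0 1 θ)) (c := 2 * Real.pi) (by positivity)
  simp only [mul_zero, mul_one] at h2
  rw [← h, ← h2]
  congr 1
  funext x
  congr 1
  simp only [circleMap, e]
  push_cast
  simp only [one_mul, zero_add, mul_one]
  congr 1
  ring

lemma integral_e_mul {Φ : ℂ → ℂ} (hΦ : Differentiable ℂ Φ) {n : ℤ} (hn : 0 < n) :
    ∫ x in (0:ℝ)..1, e n x * Φ (e 1 x) = 0 := by
  obtain ⟨k, rfl⟩ := Int.eq_ofNat_of_zero_le hn.le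
  have hk : k ≠ 0 := by
    rintro rfl; simp at hn
  have h1 : ∀ x : ℝ, e (k : ℤ) x * Φ (e 1 x) = (fun z : ℂ => z ^ k * Φ z) (e 1 x) := by
    intro x; simp [e_nat]
  have h2 := mv (Φ := fun z : ℂ => z ^ k * Φ z) (by fun_prop)
  calc ∫ x in (0:ℝ)..1, e (k : ℤ) x * Φ (e 1 x)
      = ∫ x in (0:ℝ)..1, (fun z : ℂ => z ^ k * Φ z) (e 1 x) := by simp_rw [h1]
    _ = 0 := by rw [h2]; simp [hk]

lemma integral_e {n : ℤ} (hn : n ≠ 0) : ∫ x in (0:ℝ)..1, e n x = 0 := by
  rcases lt_or_gt_of_ne hn with h | h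
  · have h1 := integral_e_mul (Φ := fun _ => (1 : ℂ)) (by fun_prop) (n := -n) (by omega)
    simp only [mul_one] at h1
    have h2 : ∫ x in (0:ℝ)..1, e n x = conj (∫ x in (0:ℝ)..1, e (-n) x) := by
      rw [← intervalIntegral.intervalIntegral_conj]
      congr 1
      funext x
      rw [conj_e]; simp
    rw [h2, h1]; simp
  · simpa using integral_e_mul (Φ := fun _ => 1) (by fun_prop) h

lemma integral_e' (n : ℤ) : ∫ x in (0:ℝ)..1, e n x = if n = 0 then 1 else 0 := by
  split_ifs with h
  · subst h; simp [e_zero]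
  · exact integral_e h

/-- The `L²` seminorm on `[0, 1]` of a real function. -/
noncomputable def L2 (f : ℝ → ℝ) : ℝ := Real.sqrt (∫ x in (0:ℝ)..1, (f x) ^ 2)

lemma L2_nonneg (f : ℝ → ℝ) : 0 ≤ L2 f := Real.sqrt_nonneg _

lemma int_sq_nonneg (f : ℝ → ℝ) : 0 ≤ ∫ x in (0:ℝ)..1, (f x) ^ 2 :=
  intervalIntegral.integral_nonneg (by norm_num) (fun x _ => by positivity)

lemma L2_sq (f : ℝ → ℝ) : L2 f ^ 2 = ∫ x in (0:ℝ)..1, (f x) ^ 2 :=
  Real.sq_sqrt (int_sq_nonneg f)

lemma cs {f g : ℝ → ℝ} (hf : Continuous f) (hg : Continuous g) :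
    ∫ x in (0:ℝ)..1, f x * g x ≤ L2 f * L2 g := by
  set a := ∫ x in (0:ℝ)..1, (f x) ^ 2
  set b := ∫ x in (0:ℝ)..1, f x * g x
  set c := ∫ x in (0:ℝ)..1, (g x) ^ 2
  have h : ∀ t : ℝ, 0 ≤ a * (t * t) + (2 * b) * t + c := by
    intro t
    have h1 : ∫ x in (0:ℝ)..1, (t * f x + g x) ^ 2 = a * (t * t) + (2 * b) * t + c := by
      have : ∀ x, (t * f x + g x) ^ 2 = (t * t) * (f x) ^ 2 + (2 * t) * (f x * g x) + (g x) ^ 2 := by
        intro x; ring
      simp_rw [this]
      rw [intervalIntegral.integral_add (by apply Continuous.intervalIntegrable; fun_prop)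
        (by apply Continuous.intervalIntegrable; fun_prop),
        intervalIntegral.integral_add (by apply Continuous.intervalIntegrable; fun_prop)
        (by apply Continuous.intervalIntegrable; fun_prop), intervalIntegral.integral_const_mul,
        intervalIntegral.integral_const_mul]
      ring
    rw [← h1]
    exact int_sq_nonneg _
  have hd := discrim_le_zero h
  have ha : 0 ≤ a := int_sq_nonneg _
  have hc : 0 ≤ c := int_sq_nonneg _
  have hb : b ^ 2 ≤ a * c := by
    unfold discrim at hd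
    nlinarith
  calc b ≤ Real.sqrt (a * c) := Real.le_sqrt_of_sq_le hb
    _ = L2 f * L2 g := by rw [Real.sqrt_mul ha]; rfl

lemma L2_add {f g : ℝ → ℝ} (hf : Continuous f) (hg : Continuous g) :
    L2 (fun x => f x + g x) ≤ L2 f + L2 g := by
  apply Real.sqrt_le_iff.2
  refine ⟨add_nonneg (L2_nonneg _) (L2_nonneg _), ?_⟩
  have : ∀ x, (f x + g x) ^ 2 = (f x) ^ 2 + 2 * (f x * g x) + (g x) ^ 2 := by
    intro x; ring
  simp_rw [this]
  rw [intervalIntegral.integral_add (by apply Continuous.intervalIntegrable; fun_prop)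
    (by apply Continuous.intervalIntegrable; fun_prop),
    intervalIntegral.integral_add (by apply Continuous.intervalIntegrable; fun_prop)
    (by apply Continuous.intervalIntegrable; fun_prop), intervalIntegral.integral_const_mul,
    ← L2_sq, ← L2_sq]
  have := cs hf hg
  nlinarith

/-- The square integral of the real part of an entire function which is real at `0`. -/
lemma integral_re_sq {Φ : ℂ → ℂ} (hΦ : Differentiable ℂ Φ) (h0 : (Φ 0).im = 0) :
    ∫ x in (0:ℝ)..1, ((Φ (e 1 x)).re) ^ 2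
      = (1 / 2) * (∫ x in (0:ℝ)..1, ‖Φ (e 1 x)‖ ^ 2) + (1 / 2) * ((Φ 0).re) ^ 2 := by
  have hc : Continuous Φ := hΦ.continuous
  have h1 : ∀ x : ℝ, ((Φ (e 1 x)).re) ^ 2
      = (1 / 2) * ‖Φ (e 1 x)‖ ^ 2 + (1 / 2) * ((Φ (e 1 x)) ^ 2).re := by
    intro x
    rw [← Complex.normSq_eq_norm_sq, Complex.normSq_apply, sq (Φ (e 1 x)), Complex.mul_re]
    ring
  simp_rw [h1]
  rw [intervalIntegral.integral_add (by apply Continuous.intervalIntegrable; fun_prop)
    (by apply Continuous.intervalIntegrable; fun_prop), intervalIntegral.integral_const_mul,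
    intervalIntegral.integral_const_mul]
  congr 2
  have h2 := mv (Φ := fun z => (Φ z) ^ 2) (by fun_prop)
  have h3 : ∫ x in (0:ℝ)..1, ((Φ (e 1 x)) ^ 2).re
      = (∫ x in (0:ℝ)..1, (Φ (e 1 x)) ^ 2).re := by
    have := Complex.reCLM.intervalIntegral_comp_comm (a := 0) (b := 1) (μ := volume)
      (f := fun x : ℝ => (Φ (e 1 x)) ^ 2) (by apply Continuous.intervalIntegrable; fun_prop)
    simpa using this
  rw [h3, h2, sq, sq, Complex.mul_re, h0]
  ring

/-- Damping factors. -/
structure Damp (q : ℂ → ℂ) : Prop where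
  diff : Differentiable ℂ q
  norm_le : ∀ x : ℝ, ‖q (e 1 x)‖ ≤ 1
  real0 : (q 0).im = 0
  nonneg0 : 0 ≤ (q 0).re

lemma Damp.le_one {q : ℂ → ℂ} (h : Damp q) : (q 0).re ≤ 1 := by
  have h1 := mv h.diff
  have h2 : ‖q 0‖ ≤ 1 := by
    rw [← h1]
    have := intervalIntegral.norm_integral_le_of_norm_le_const (a := 0) (b := 1) (C := 1)
      (f := fun x : ℝ => q (e 1 x)) (fun x _ => h.norm_le x)
    simpa using this
  exact (Complex.re_le_norm _).trans h2

lemma Damp.one : Damp (fun _ => 1) where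
  diff := by fun_prop
  norm_le := by intro x; simp
  real0 := by simp
  nonneg0 := by simp

lemma Damp.mul {q r : ℂ → ℂ} (hq : Damp q) (hr : Damp r) : Damp (fun z => q z * r z) where
  diff := hq.diff.mul hr.diff
  norm_le := by
    intro x
    rw [norm_mul]
    exact mul_le_one₀ (hq.norm_le x) (norm_nonneg _) (hr.norm_le x)
  real0 := by rw [Complex.mul_im, hq.real0, hr.real0]; ring
  nonneg0 := by
    rw [Complex.mul_re, hq.real0, hr.real0]
    have := mul_nonneg hq.nonneg0 hr.nonneg0
    simpa using this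

lemma Damp.prod {ι : Type*} (s : Finset ι) (q : ι → ℂ → ℂ) (h : ∀ i ∈ s, Damp (q i)) :
    Damp (fun z => ∏ i ∈ s, q i z) := by
  classical
  induction s using Finset.induction_on with
  | empty => simpa using Damp.one
  | insert a s ha ih =>
    have h1 := (h a (Finset.mem_insert_self a s)).mul
      (ih (fun i hi => h i (Finset.mem_insert_of_mem hi)))
    simpa [Finset.prod_insert ha] using h1

/-- Multiplication by a damping factor does not increase the seminorm of the real part. -/
lemma L2_mul_le {q G : ℂ → ℂ} (hq : Damp q) (hG : Differentiable ℂ G) (h0 : (G 0).im = 0) :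
    L2 (fun x => (q (e 1 x) * G (e 1 x)).re) ≤ L2 (fun x => (G (e 1 x)).re) := by
  have hqc := hq.diff.continuous
  have hGc := hG.continuous
  apply Real.sqrt_le_sqrt
  rw [integral_re_sq (Φ := fun z => q z * G z) (hq.diff.mul hG)
    (by rw [Complex.mul_im, hq.real0, h0]; ring), integral_re_sq hG h0]
  have h1 : ∫ x in (0:ℝ)..1, ‖q (e 1 x) * G (e 1 x)‖ ^ 2 ≤ ∫ x in (0:ℝ)..1, ‖G (e 1 x)‖ ^ 2 := by
    apply intervalIntegral.integral_mono_on (by norm_num)
      (by apply Continuous.intervalIntegrable; fun_prop)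
      (by apply Continuous.intervalIntegrable; fun_prop)
    intro x _
    rw [norm_mul]
    have := hq.norm_le x
    have h2 : ‖q (e 1 x)‖ * ‖G (e 1 x)‖ ≤ ‖G (e 1 x)‖ :=
      mul_le_of_le_one_left (norm_nonneg _) this
    gcongr
  have h2 : ((q 0 * G 0).re) ^ 2 ≤ ((G 0).re) ^ 2 := by
    rw [Complex.mul_re, h0, mul_zero, sub_zero, mul_pow]
    have h3 : (q 0).re ^ 2 ≤ 1 := by
      have := hq.nonneg0
      have := hq.le_one
      nlinarith
    nlinarith [sq_nonneg (G 0).re]
  linarith

/-- The seminorm of `Re (1 - q)` is subadditive under products of damping factors. -/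
lemma L2_prod_le {ι : Type*} (s : Finset ι) (q : ι → ℂ → ℂ) (h : ∀ i ∈ s, Damp (q i)) :
    L2 (fun x => (1 - ∏ i ∈ s, q i (e 1 x)).re)
      ≤ ∑ i ∈ s, L2 (fun x => (1 - q i (e 1 x)).re) := by
  classical
  induction s using Finset.induction_on with
  | empty => simp [L2]
  | insert a s ha ih =>
    have hs : ∀ i ∈ s, Damp (q i) := fun i hi => h i (Finset.mem_insert_of_mem hi)
    have h1 := ih hs
    have hP := Damp.prod s q hs
    have hPc := hP.diff.continuous
    have hqa := h a (Finset.mem_insert_self a s)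
    have hqc := hqa.diff.continuous
    have hPc' : Continuous (fun z : ℂ => ∏ i ∈ s, q i z) := hPc
    rw [Finset.sum_insert ha]
    have h2 : (fun x => (1 - ∏ i ∈ insert a s, q i (e 1 x)).re)
        = fun x => (1 - q a (e 1 x)).re
          + (q a (e 1 x) * (1 - ∏ i ∈ s, q i (e 1 x))).re := by
      funext x
      rw [Finset.prod_insert ha, ← Complex.add_re]
      congr 1
      ring
    rw [h2]
    refine (L2_add (by fun_prop) ?_).trans ?_
    · have h3 : Continuous fun x : ℝ => ∏ i ∈ s, q i (e 1 x) := hPc'.comp (e_continuous 1)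
      fun_prop
    · gcongr
      refine le_trans ?_ h1
      have := L2_mul_le (G := fun z => 1 - ∏ i ∈ s, q i z) hqa
        ((differentiable_const (1:ℂ)).sub hP.diff) (by
          have := hP.real0
          simp only [Complex.sub_im, Complex.one_im] at this ⊢
          rw [this]; ring)
      exact this

end Pool.Littlewood
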