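import Pool.Agent.Lib_MP_25630e_an.Basic

/-!
# Second and fourth moments of exponential sums

The additive energy of a set of `n` integers is at most `(2 n ^ 3 + n) / 3`, the value for an
interval. The proof is by removing the largest element.
-/

set_option autoImplicit false

open Complex MeasureTheory intervalIntegral Set
open scoped ComplexConjugate

namespace Pool.Littlewood

/-- The exponential sum of a finite set of integers. -/
noncomputable def D (S : Finset ℤ) (x : ℝ) : ℂ := ∑ a ∈ S, e a x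

@[fun_prop]
lemma D_continuous (S : Finset ℤ) : Continuous (D S) := by unfold D; fun_prop

lemma D_periodic (S : Finset ℤ) (x : ℝ) : D S (x + 1) = D S x := by
  simp [D, e_periodic]

lemma norm_D_le (S : Finset ℤ) (x : ℝ) : ‖D S x‖ ≤ S.card := by
  refine (norm_sum_le _ _).trans ?_
  simp [norm_e]

lemma D_insert {S : Finset ℤ} {M : ℤ} (h : M ∉ S) (x : ℝ) :
    D (insert M S) x = D S x + e M x := by
  rw [D, Finset.sum_insert h, add_comm]; rfl

lemma conj_D (S : Finset ℤ) (x : ℝ) : conj (D S x) = ∑ a ∈ S, e (-a) x := by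
  simp [D, conj_e]

lemma ofReal_norm_sq (z : ℂ) : ((‖z‖ ^ 2 : ℝ) : ℂ) = z * conj z := by
  rw [Complex.mul_conj, Complex.normSq_eq_norm_sq]

/-- Second moment. -/
lemma integral_D_sq (S : Finset ℤ) : ∫ x in (0:ℝ)..1, ‖D S x‖ ^ 2 = S.card := by
  have h1 : ∀ x : ℝ, ((‖D S x‖ ^ 2 : ℝ) : ℂ) = ∑ a ∈ S, ∑ b ∈ S, e (a - b) x := by
    intro x
    rw [ofReal_norm_sq, conj_D, D, Finset.sum_mul_sum]
    refine Finset.sum_congr rfl fun a _ => Finset.sum_congr rfl fun b _ => ?_
    rw [← e_add, sub_eq_add_neg]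
  have h2 : ((∫ x in (0:ℝ)..1, ‖D S x‖ ^ 2 : ℝ) : ℂ) = S.card := by
    rw [← intervalIntegral.integral_ofReal]
    simp_rw [h1]
    rw [intervalIntegral.integral_finsetSum (fun a _ => by
      apply Continuous.intervalIntegrable; fun_prop)]
    simp_rw [intervalIntegral.integral_finsetSum (fun (b : ℤ) (_ : b ∈ S) =>
      (e_continuous (_ - b)).intervalIntegrable 0 1), integral_e']
    simp [sub_eq_zero]
  exact_mod_cast h2

/-- The number of pairs in strictly decreasing order. -/
lemma card_pairs (S : Finset ℤ) :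
    2 * (∑ a ∈ S, ∑ c ∈ S, if c < a then (1 : ℝ) else 0) = (S.card : ℝ) ^ 2 - S.card := by
  have h1 : (∑ a ∈ S, ∑ c ∈ S, if c < a then (1 : ℝ) else 0)
      = ∑ a ∈ S, ∑ c ∈ S, if a < c then (1 : ℝ) else 0 := by
    rw [Finset.sum_comm]
  have h2 : (∑ a ∈ S, ∑ c ∈ S, if c < a then (1 : ℝ) else 0)
      + (∑ a ∈ S, ∑ c ∈ S, if a < c then (1 : ℝ) else 0)
      + (∑ a ∈ S, ∑ c ∈ S, if a = c then (1 : ℝ) else 0) = (S.card : ℝ) ^ 2 := by
    rw [← Finset.sum_add_distrib, ← Finset.sum_add_distrib]
    have : ∀ a ∈ S, ((∑ c ∈ S, if c < a then (1 : ℝ) else 0)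
        + (∑ c ∈ S, if a < c then (1 : ℝ) else 0)
        + (∑ c ∈ S, if a = c then (1 : ℝ) else 0)) = S.card := by
      intro a _
      rw [← Finset.sum_add_distrib, ← Finset.sum_add_distrib]
      rw [Finset.sum_congr rfl (g := fun _ => (1 : ℝ))]
      · simp
      · intro c _
        rcases lt_trichotomy c a with h | h | h
        · simp [h, h.not_gt, h.ne']
        · simp [h]
        · simp [h, h.not_gt, h.ne]
    rw [Finset.sum_congr rfl this]
    simp [sq]
  have h3 : (∑ a ∈ S, ∑ c ∈ S, if a = c then (1 : ℝ) else 0) = S.card := by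
    simp
  linarith

/-- A linear bound for the cubic correlation with a frequency above the set. -/
lemma integral_cubic_le {S : Finset ℤ} {M : ℤ} (hM : ∀ a ∈ S, a < M) :
    ∫ x in (0:ℝ)..1, ‖D S x‖ ^ 2 * (D S x * e (-M) x).re
      ≤ ((S.card : ℝ) ^ 2 - S.card) / 2 := by
  have h1 : ∀ x : ℝ, ((‖D S x‖ ^ 2 * (D S x * e (-M) x).re : ℝ))
      = (∑ a ∈ S, ∑ c ∈ S, ∑ b ∈ S, e (a - c + (b - M)) x).re := by
    intro x
    have : ((‖D S x‖ ^ 2 : ℝ) : ℂ) * (D S x * e (-M) x)
        = ∑ a ∈ S, ∑ c ∈ S, ∑ b ∈ S, e (a - c + (b - M)) x := by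
      rw [ofReal_norm_sq, conj_D]
      nth_rewrite 1 [D]
      rw [Finset.sum_mul_sum, Finset.sum_mul]
      refine Finset.sum_congr rfl fun a _ => ?_
      rw [Finset.sum_mul]
      refine Finset.sum_congr rfl fun c _ => ?_
      rw [D, Finset.sum_mul, Finset.mul_sum]
      refine Finset.sum_congr rfl fun b _ => ?_
      rw [e_add, sub_eq_add_neg, sub_eq_add_neg, e_add, e_add]
    rw [← this, Complex.re_ofReal_mul]
  simp_rw [h1]
  have h2 : ∫ x in (0:ℝ)..1, (∑ a ∈ S, ∑ c ∈ S, ∑ b ∈ S, e (a - c + (b - M)) x).re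
      = (∫ x in (0:ℝ)..1, ∑ a ∈ S, ∑ c ∈ S, ∑ b ∈ S, e (a - c + (b - M)) x).re := by
    have := Complex.reCLM.intervalIntegral_comp_comm (a := 0) (b := 1) (μ := volume)
      (f := fun x : ℝ => ∑ a ∈ S, ∑ c ∈ S, ∑ b ∈ S, e (a - c + (b - M)) x)
      (by apply Continuous.intervalIntegrable; fun_prop)
    simpa using this
  rw [h2, intervalIntegral.integral_finsetSum (fun a _ => by
      apply Continuous.intervalIntegrable; fun_prop)]
  have h3 : ∀ a ∈ S, ∫ x in (0:ℝ)..1, ∑ c ∈ S, ∑ b ∈ S, e (a - c + (b - M)) x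
      = ∑ c ∈ S, ∑ b ∈ S, if a - c + (b - M) = 0 then (1 : ℂ) else 0 := by
    intro a _
    rw [intervalIntegral.integral_finsetSum (fun a _ => by
      apply Continuous.intervalIntegrable; fun_prop)]
    refine Finset.sum_congr rfl fun c _ => ?_
    rw [intervalIntegral.integral_finsetSum (fun a _ => by
      apply Continuous.intervalIntegrable; fun_prop)]
    exact Finset.sum_congr rfl fun b _ => integral_e' _
  rw [Finset.sum_congr rfl h3]
  have h4 : (∑ a ∈ S, ∑ c ∈ S, ∑ b ∈ S, if a - c + (b - M) = 0 then (1 : ℂ) else 0).re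
      = ∑ a ∈ S, ∑ c ∈ S, ∑ b ∈ S, if a - c + (b - M) = 0 then (1 : ℝ) else 0 := by
    rw [Complex.re_sum]
    refine Finset.sum_congr rfl fun a _ => ?_
    rw [Complex.re_sum]
    refine Finset.sum_congr rfl fun c _ => ?_
    rw [Complex.re_sum]
    refine Finset.sum_congr rfl fun b _ => ?_
    split_ifs <;> simp
  rw [h4]
  have h5 : ∑ a ∈ S, ∑ c ∈ S, ∑ b ∈ S, (if a - c + (b - M) = 0 then (1 : ℝ) else 0)
      ≤ ∑ a ∈ S, ∑ c ∈ S, if c < a then (1 : ℝ) else 0 := by
    refine Finset.sum_le_sum fun a _ => Finset.sum_le_sum fun c _ => ?_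
    by_cases hca : c < a
    · simp only [hca, if_true]
      have : ∀ b ∈ S, (if a - c + (b - M) = 0 then (1 : ℝ) else 0)
          = if b = M - a + c then (1 : ℝ) else 0 := by
        intro b _
        congr 1
        simp only [eq_iff_iff]
        omega
      rw [Finset.sum_congr rfl this, Finset.sum_ite_eq']
      split_ifs <;> norm_num
    · simp only [hca, if_false]
      apply le_of_eq
      apply Finset.sum_eq_zero
      intro b hb
      have := hM b hb
      rw [if_neg]
      omega
  have h6 := card_pairs S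
  linarith

lemma integral_lin {S : Finset ℤ} {M : ℤ} (hM : ∀ a ∈ S, a < M) :
    ∫ x in (0:ℝ)..1, (D S x * e (-M) x).re = 0 := by
  have h1 : ∫ x in (0:ℝ)..1, (D S x * e (-M) x).re
      = (∫ x in (0:ℝ)..1, D S x * e (-M) x).re := by
    have := Complex.reCLM.intervalIntegral_comp_comm (a := 0) (b := 1) (μ := volume)
      (f := fun x : ℝ => D S x * e (-M) x)
      (by apply Continuous.intervalIntegrable; fun_prop)
    simpa using this
  have h2 : ∀ x : ℝ, D S x * e (-M) x = ∑ a ∈ S, e (a - M) x := by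
    intro x
    rw [D, Finset.sum_mul]
    exact Finset.sum_congr rfl fun a _ => by rw [sub_eq_add_neg, e_add]
  rw [h1]
  simp_rw [h2]
  rw [intervalIntegral.integral_finsetSum (fun a _ => by
    apply Continuous.intervalIntegrable; fun_prop), Finset.sum_eq_zero]
  · simp
  · intro a ha
    exact integral_e (by have := hM a ha; omega)

lemma integral_quad {S : Finset ℤ} {M : ℤ} (hM : ∀ a ∈ S, a < M) :
    ∫ x in (0:ℝ)..1, ((D S x * e (-M) x).re) ^ 2 = S.card / 2 := by
  have h1 : ∀ x : ℝ, ((D S x * e (-M) x).re) ^ 2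
      = (1 / 2) * ‖D S x‖ ^ 2 + (1 / 2) * ((D S x * e (-M) x) ^ 2).re := by
    intro x
    have h3 : ‖D S x‖ ^ 2 = ‖D S x * e (-M) x‖ ^ 2 := by rw [norm_mul, norm_e, mul_one]
    rw [h3, ← Complex.normSq_eq_norm_sq, Complex.normSq_apply, sq (D S x * e (-M) x),
      Complex.mul_re (D S x * e (-M) x)]
    ring
  simp_rw [h1]
  rw [intervalIntegral.integral_add (by apply Continuous.intervalIntegrable; fun_prop)
    (by apply Continuous.intervalIntegrable; fun_prop), intervalIntegral.integral_const_mul,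
    intervalIntegral.integral_const_mul, integral_D_sq]
  have h2 : ∫ x in (0:ℝ)..1, ((D S x * e (-M) x) ^ 2).re
      = (∫ x in (0:ℝ)..1, (D S x * e (-M) x) ^ 2).re := by
    have := Complex.reCLM.intervalIntegral_comp_comm (a := 0) (b := 1) (μ := volume)
      (f := fun x : ℝ => (D S x * e (-M) x) ^ 2)
      (by apply Continuous.intervalIntegrable; fun_prop)
    simpa using this
  have h3 : ∀ x : ℝ, (D S x * e (-M) x) ^ 2 = ∑ a ∈ S, ∑ b ∈ S, e ((a - M) + (b - M)) x := by
    intro x
    have h4 : D S x * e (-M) x = ∑ a ∈ S, e (a - M) x := by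
      rw [D, Finset.sum_mul]
      exact Finset.sum_congr rfl fun a _ => by rw [sub_eq_add_neg, e_add]
    rw [h4, sq, Finset.sum_mul_sum]
    exact Finset.sum_congr rfl fun a _ => Finset.sum_congr rfl fun b _ => by rw [e_add (a - M)]
  rw [h2]
  simp_rw [h3]
  rw [intervalIntegral.integral_finsetSum (fun a _ => by
    apply Continuous.intervalIntegrable; fun_prop), Finset.sum_eq_zero]
  · simp; ring
  · intro a ha
    rw [intervalIntegral.integral_finsetSum (fun a _ => by
      apply Continuous.intervalIntegrable; fun_prop), Finset.sum_eq_zero]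
    intro b hb
    exact integral_e (by have := hM a ha; have := hM b hb; omega)

/-- Fourth moment (additive energy). -/
lemma integral_D_four (S : Finset ℤ) :
    ∫ x in (0:ℝ)..1, ‖D S x‖ ^ 4 ≤ (2 * (S.card : ℝ) ^ 3 + S.card) / 3 := by
  induction S using Finset.induction_on_max with
  | empty => simp [D]
  | insert M S hM ih =>
    have hMS : M ∉ S := fun h => lt_irrefl _ (hM M h)
    rw [Finset.card_insert_of_notMem hMS]
    push_cast
    set k : ℝ := (S.card : ℝ) with hk
    have h1 : ∀ x : ℝ, ‖D (insert M S) x‖ ^ 4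
        = ‖D S x‖ ^ 4 + (2 * ‖D S x‖ ^ 2 + (1 + (4 * (‖D S x‖ ^ 2 * (D S x * e (-M) x).re)
          + (4 * (D S x * e (-M) x).re + 4 * ((D S x * e (-M) x).re) ^ 2)))) := by
      intro x
      have h2 : ‖D (insert M S) x‖ ^ 2 = ‖D S x‖ ^ 2 + 1 + 2 * (D S x * e (-M) x).re := by
        rw [D_insert hMS, ← conj_e, ← Complex.normSq_eq_norm_sq, Complex.normSq_add,
          Complex.normSq_eq_norm_sq, Complex.normSq_eq_norm_sq, norm_e]
        ring
      calc ‖D (insert M S) x‖ ^ 4 = (‖D (insert M S) x‖ ^ 2) ^ 2 := by ring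
        _ = _ := by rw [h2]; ring
    simp_rw [h1]
    have hc : Continuous (D S) := D_continuous S
    rw [intervalIntegral.integral_add (by apply Continuous.intervalIntegrable; fun_prop)
      (by apply Continuous.intervalIntegrable; fun_prop),
      intervalIntegral.integral_add (by apply Continuous.intervalIntegrable; fun_prop)
      (by apply Continuous.intervalIntegrable; fun_prop),
      intervalIntegral.integral_add (by apply Continuous.intervalIntegrable; fun_prop)
      (by apply Continuous.intervalIntegrable; fun_prop),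
      intervalIntegral.integral_add (by apply Continuous.intervalIntegrable; fun_prop)
      (by apply Continuous.intervalIntegrable; fun_prop),
      intervalIntegral.integral_add (by apply Continuous.intervalIntegrable; fun_prop)
      (by apply Continuous.intervalIntegrable; fun_prop)]
    simp only [intervalIntegral.integral_const_mul]
    rw [integral_D_sq, integral_lin hM, integral_quad hM]
    have h3 := integral_cubic_le hM
    simp only [intervalIntegral.integral_const, sub_zero, smul_eq_mul, mul_one]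
    have h4 : (S.card : ℝ) = k := hk.symm
    rw [h4] at h3 ⊢
    nlinarith

end Pool.Littlewood
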