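import Pool.Agent.Lib_MP_25630e_an.Basic
import Pool.Agent.Lib_MP_25630e_an.Energy
import Pool.Agent.Lib_MP_25630e_an.Approx

/-!
# The damping factor of an atom

For a finite set `S` of integers with at least `16` elements there is a damping factor `q` with
`‖q‖ ≤ 1 - (7/8) ‖D S‖ / |S|` on the circle and small `L²` norm of `Re (1 - q)`.
-/

set_option autoImplicit false

open Complex MeasureTheory intervalIntegral Set
open scoped ComplexConjugate

namespace Pool.Littlewood

lemma phi_nonneg {a : ℝ} (ha : 0 ≤ a) :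
    3 / 2 - 2 * Real.exp (-a) + (1 / 2) * Real.exp (-a) ^ 2 ≤ a := by
  let g : ℝ → ℝ := fun a => a - 3 / 2 + 2 * Real.exp (-a) - (1 / 2) * Real.exp (-a) ^ 2
  have hd : ∀ x : ℝ, HasDerivAt g ((1 - Real.exp (-x)) ^ 2) x := by
    intro x
    have h1 : HasDerivAt (fun a : ℝ => Real.exp (-a)) (-Real.exp (-x)) x := by
      have := (hasDerivAt_neg x).exp
      simpa using this
    have h2 := ((((hasDerivAt_id x).sub_const (3 / 2)).add (h1.const_mul 2)).sub
      ((h1.pow 2).const_mul (1 / 2)))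
    have h3 : (1 - Real.exp (-x)) ^ 2 = 1 + 2 * -Real.exp (-x)
        - 1 / 2 * ((2 : ℕ) * Real.exp (-x) ^ (2 - 1) * -Real.exp (-x)) := by
      push_cast; ring
    rw [h3]
    exact h2
  have hm : Monotone g := by
    apply monotone_of_deriv_nonneg (fun x => (hd x).differentiableAt)
    intro x
    rw [(hd x).deriv]
    positivity
  have h0 := hm ha
  simp only [g, neg_zero, Real.exp_zero] at h0
  linarith

/-- Tail of the logarithmic series. -/
noncomputable def tail (x : ℝ) : ℝ :=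
  -Real.log (1 - x) - (x + x ^ 2 / 2 + x ^ 3 / 3 + x ^ 4 / 4)

lemma hasSum_tail {x : ℝ} (hx : |x| < 1) :
    HasSum (fun n : ℕ => x ^ (n + 5) / ((n : ℝ) + 5)) (tail x) := by
  have h := Real.hasSum_pow_div_log_of_abs_lt_one hx
  have h2 := (hasSum_nat_add_iff' 4).mpr h
  have h3 : (fun n : ℕ => x ^ (n + 5) / ((n : ℝ) + 5))
      = fun n : ℕ => x ^ (n + 4 + 1) / (((n + 4 : ℕ) : ℝ) + 1) := by
    funext n
    push_cast
    rw [show (n : ℝ) + 4 + 1 = n + 5 by ring]
  have h4 : tail x = -Real.log (1 - x) - ∑ i ∈ Finset.range 4, x ^ (i + 1) / ((i : ℝ) + 1) := by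
    simp only [Finset.sum_range_succ, tail, Finset.sum_range_zero]
    push_cast
    ring
  rw [h3, h4]
  exact h2

lemma tail_le {t : ℝ} (h0 : 0 ≤ t) (h1 : t ≤ 1) : tail (7 / 8 * t) ≤ t ^ 5 * tail (7 / 8) := by
  have ht : |7 / 8 * t| < 1 := by
    rw [abs_of_nonneg (by positivity)]; linarith
  have h7 : |(7 / 8 : ℝ)| < 1 := by rw [abs_of_nonneg (by norm_num)]; norm_num
  refine hasSum_le (fun n => ?_) (hasSum_tail ht) ((hasSum_tail h7).mul_left (t ^ 5))
  rw [mul_pow, mul_div_assoc']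
  have h2 : t ^ (n + 5) ≤ t ^ 5 := pow_le_pow_of_le_one h0 h1 (by omega)
  gcongr ?_ / _
  have h3 : (0:ℝ) ≤ (7 / 8) ^ (n + 5) := by positivity
  nlinarith

lemma tail_val : 2 * tail (7 / 8) ≤ 0.90356 := by
  have h1 : Real.log (1 - 7 / 8) = - (3 * Real.log 2) := by
    rw [show (1 - 7 / 8 : ℝ) = (2 ^ 3)⁻¹ by norm_num, Real.log_inv, Real.log_pow]
    push_cast; ring
  have h2 := Real.log_two_lt_d9
  rw [tail, h1]
  norm_num
  linarith

lemma G_bound {t : ℝ} (h0 : 0 ≤ t) (h1 : t ≤ 1) :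
    (1 - 7 / 8 * t) ^ 2 - 1 + 2 * (-Real.log (1 - 7 / 8 * t))
      ≤ 1.57652 * t ^ 2 + 1.598 * t ^ 4 := by
  have h2 := tail_le h0 h1
  have h3 := tail_val
  have h4 : -Real.log (1 - 7 / 8 * t) = tail (7 / 8 * t) + (7 / 8 * t + (7 / 8 * t) ^ 2 / 2
      + (7 / 8 * t) ^ 3 / 3 + (7 / 8 * t) ^ 4 / 4) := by rw [tail]; ring
  have h5 : t ^ 5 * (2 * tail (7 / 8)) ≤ t ^ 5 * 0.90356 :=
    mul_le_mul_of_nonneg_left h3 (by positivity)
  rw [h4]
  have h6 : 0 ≤ t ^ 2 * ((1 - t) * (0.90356 * (t - 0.2221) ^ 2 + 0.0006)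
      + 0.000004 * t) := by
    have : 0 ≤ 1 - t := by linarith
    positivity
  have h7 : 2 * (7 / 8) ^ 2 * t ^ 2 + (2 / 3) * (7 / 8) ^ 3 * t ^ 3 + (1 / 2) * (7 / 8) ^ 4 * t ^ 4
      + 0.90356 * t ^ 5 ≤ 1.57652 * t ^ 2 + 1.598 * t ^ 4 := by
    have h8 : 1.57652 + 1.598 * t ^ 2 - 2 * (7 / 8) ^ 2 - (2 / 3) * (7 / 8) ^ 3 * t
        - (1 / 2) * (7 / 8) ^ 4 * t ^ 2 - 0.90356 * t ^ 3 ≥ 0 := by
      have h9 : 0 ≤ (1 - t) * (0.90356 * (t - 0.2221) ^ 2) :=
        mul_nonneg (by linarith) (by positivity)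
      have h10 : 0 ≤ t * (1 - t) := mul_nonneg h0 (by linarith)
      nlinarith
    nlinarith [mul_nonneg (sq_nonneg t) h8]
  nlinarith

/-- The damping factor of a set with at least `16` elements. -/
lemma exists_damp {S : Finset ℤ} (hS : 16 ≤ S.card) :
    ∃ q : ℂ → ℂ, Damp q ∧
      (∀ x : ℝ, ‖q (e 1 x)‖ ≤ 1 - 7 / 8 * (‖D S x‖ / S.card)) ∧
      L2 (fun x => (1 - q (e 1 x)).re) ≤ 1.14979 / Real.sqrt S.card := by
  have hk16 : (16 : ℝ) ≤ S.card := by exact_mod_cast hS
  set k : ℝ := (S.card : ℝ) with hk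
  have hk0 : 0 < k := by linarith
  set s : ℝ → ℝ := fun x => ‖D S x‖ / k with hs
  have hsc : Continuous s := by rw [hs]; fun_prop
  have hs0 : ∀ x, 0 ≤ s x := fun x => by positivity
  have hs1 : ∀ x, s x ≤ 1 := fun x => by
    rw [hs]; simp only; rw [div_le_one hk0]; exact norm_D_le S x
  have hpos : ∀ x, 1 / 8 ≤ 1 - 7 / 8 * s x := fun x => by have := hs1 x; linarith
  set u : ℝ → ℝ := fun x => -Real.log (1 - 7 / 8 * s x) with hu
  have huc : Continuous u := by
    rw [hu]
    apply Continuous.neg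
    apply Continuous.log (by fun_prop)
    intro x
    have := hpos x
    linarith
  have hper : ∀ x, u (x + 1) = u x := by
    intro x; simp only [hu, hs, D_periodic]
  have hu0 : ∀ x, 0 ≤ u x := by
    intro x
    rw [hu]
    simp only
    rw [neg_nonneg]
    apply Real.log_nonpos
    · linarith [hpos x]
    · linarith [hs0 x]
  obtain ⟨P, hP, hP0, hPe⟩ := exists_re_approx huc hper (ε := 1 / (50000 * k)) (by positivity)
  have hPc := hP.continuous
  set q : ℂ → ℂ := fun z => Complex.exp (-P z) with hq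
  have hqd : Differentiable ℂ q := by rw [hq]; fun_prop
  have hqc := hqd.continuous
  have hqn : ∀ x : ℝ, ‖q (e 1 x)‖ ≤ 1 - 7 / 8 * s x := by
    intro x
    rw [hq]
    simp only
    rw [Complex.norm_exp, Complex.neg_re]
    calc Real.exp (-(P (e 1 x)).re) ≤ Real.exp (-u x) := by
          apply Real.exp_le_exp.2; linarith [(hPe x).1]
      _ = 1 - 7 / 8 * s x := by
          rw [hu]; simp only [neg_neg]
          exact Real.exp_log (by linarith [hpos x])
  have hq0 : q 0 = ((Real.exp (-(P 0).re) : ℝ) : ℂ) := by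
    rw [hq]
    simp only
    rw [Complex.ofReal_exp]
    congr 1
    apply Complex.ext
    · simp
    · simp [hP0]
  have hD : Damp q := by
    refine ⟨hqd, fun x => (hqn x).trans (by linarith [hs0 x]), ?_, ?_⟩
    · rw [hq0, Complex.ofReal_im]
    · rw [hq0, Complex.ofReal_re]; positivity
  refine ⟨q, hD, hqn, ?_⟩
  -- the mean of `Re P`
  set a : ℝ := (P 0).re with ha
  have haI : ∫ x in (0:ℝ)..1, (P (e 1 x)).re = a := by
    have h1 := Complex.reCLM.intervalIntegral_comp_comm (a := 0) (b := 1) (μ := volume)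
      (f := fun x : ℝ => P (e 1 x)) (by apply Continuous.intervalIntegrable; fun_prop)
    rw [mv hP] at h1
    simpa using h1
  have ha0 : 0 ≤ a := by
    rw [← haI]
    apply intervalIntegral.integral_nonneg (by norm_num)
    intro x _
    exact (hu0 x).trans (hPe x).1
  have haU : a ≤ (∫ x in (0:ℝ)..1, u x) + 1 / (50000 * k) := by
    rw [← haI]
    have : (∫ x in (0:ℝ)..1, u x) + 1 / (50000 * k) = ∫ x in (0:ℝ)..1, (u x + 1 / (50000 * k)) := by
      rw [intervalIntegral.integral_add (by apply Continuous.intervalIntegrable; fun_prop)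
        (by apply Continuous.intervalIntegrable; fun_prop)]
      simp
    rw [this]
    apply intervalIntegral.integral_mono_on (by norm_num)
      (by apply Continuous.intervalIntegrable; fun_prop)
      (by apply Continuous.intervalIntegrable; fun_prop)
    intro x _
    exact (hPe x).2
  -- the square norm
  have hqre : ∫ x in (0:ℝ)..1, (q (e 1 x)).re = Real.exp (-a) := by
    have h1 := Complex.reCLM.intervalIntegral_comp_comm (a := 0) (b := 1) (μ := volume)
      (f := fun x : ℝ => q (e 1 x)) (by apply Continuous.intervalIntegrable; fun_prop)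
    rw [mv hqd, hq0] at h1
    simp only [Complex.reCLM_apply, Complex.ofReal_re] at h1
    exact h1
  have hnorm : ∫ x in (0:ℝ)..1, ‖1 - q (e 1 x)‖ ^ 2
      = 1 - 2 * Real.exp (-a) + ∫ x in (0:ℝ)..1, ‖q (e 1 x)‖ ^ 2 := by
    have h1 : ∀ x : ℝ, ‖1 - q (e 1 x)‖ ^ 2 = (1 - 2 * (q (e 1 x)).re) + ‖q (e 1 x)‖ ^ 2 := by
      intro x
      rw [← Complex.normSq_eq_norm_sq, ← Complex.normSq_eq_norm_sq, Complex.normSq_apply,
        Complex.normSq_apply]
      simp
      ring
    simp_rw [h1]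
    rw [intervalIntegral.integral_add (by apply Continuous.intervalIntegrable; fun_prop)
        (by apply Continuous.intervalIntegrable; fun_prop),
      intervalIntegral.integral_sub (by apply Continuous.intervalIntegrable; fun_prop)
        (by apply Continuous.intervalIntegrable; fun_prop),
      intervalIntegral.integral_const_mul, hqre]
    simp
  have hkey : L2 (fun x => (1 - q (e 1 x)).re) ^ 2
      = (1 / 2) * (1 - 2 * Real.exp (-a) + ∫ x in (0:ℝ)..1, ‖q (e 1 x)‖ ^ 2)
        + (1 / 2) * (1 - Real.exp (-a)) ^ 2 := by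
    rw [L2_sq, integral_re_sq (Φ := fun z => 1 - q z) (by fun_prop) (by
      rw [Complex.sub_im, hD.real0]; simp), hnorm]
    simp only [Complex.sub_re, Complex.one_re, hq0, Complex.ofReal_re]
  have hq2 : ∫ x in (0:ℝ)..1, ‖q (e 1 x)‖ ^ 2 ≤ ∫ x in (0:ℝ)..1, (1 - 7 / 8 * s x) ^ 2 := by
    apply intervalIntegral.integral_mono_on (by norm_num)
      (by apply Continuous.intervalIntegrable; fun_prop)
      (by apply Continuous.intervalIntegrable; fun_prop)
    intro x _
    have := hqn x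
    gcongr
  have hG : (∫ x in (0:ℝ)..1, (1 - 7 / 8 * s x) ^ 2) - 1 + 2 * ∫ x in (0:ℝ)..1, u x
      ≤ 1.57652 * (∫ x in (0:ℝ)..1, s x ^ 2) + 1.598 * ∫ x in (0:ℝ)..1, s x ^ 4 := by
    have h1 : (∫ x in (0:ℝ)..1, (1 - 7 / 8 * s x) ^ 2) - 1 + 2 * ∫ x in (0:ℝ)..1, u x
        = ∫ x in (0:ℝ)..1, ((1 - 7 / 8 * s x) ^ 2 - 1 + 2 * u x) := by
      rw [intervalIntegral.integral_add (by apply Continuous.intervalIntegrable; fun_prop)
        (by apply Continuous.intervalIntegrable; fun_prop),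
        intervalIntegral.integral_sub (by apply Continuous.intervalIntegrable; fun_prop)
        (by apply Continuous.intervalIntegrable; fun_prop),
        intervalIntegral.integral_const_mul]
      simp
    have h2 : 1.57652 * (∫ x in (0:ℝ)..1, s x ^ 2) + 1.598 * ∫ x in (0:ℝ)..1, s x ^ 4
        = ∫ x in (0:ℝ)..1, (1.57652 * s x ^ 2 + 1.598 * s x ^ 4) := by
      rw [intervalIntegral.integral_add (by apply Continuous.intervalIntegrable; fun_prop)
        (by apply Continuous.intervalIntegrable; fun_prop),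
        intervalIntegral.integral_const_mul, intervalIntegral.integral_const_mul]
    rw [h1, h2]
    apply intervalIntegral.integral_mono_on (by norm_num)
      (by apply Continuous.intervalIntegrable; fun_prop)
      (by apply Continuous.intervalIntegrable; fun_prop)
    intro x _
    exact G_bound (hs0 x) (hs1 x)
  have hm2 : ∫ x in (0:ℝ)..1, s x ^ 2 = 1 / k := by
    have : ∀ x, s x ^ 2 = (1 / k ^ 2) * ‖D S x‖ ^ 2 := by
      intro x; rw [hs]; field_simp
    simp_rw [this]
    rw [intervalIntegral.integral_const_mul, integral_D_sq, ← hk]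
    field_simp
  have hm4 : ∫ x in (0:ℝ)..1, s x ^ 4 ≤ (1 / k) * (2 / 3 + 1 / 768) := by
    have : ∀ x, s x ^ 4 = (1 / k ^ 4) * ‖D S x‖ ^ 4 := by
      intro x; rw [hs]; field_simp
    simp_rw [this]
    rw [intervalIntegral.integral_const_mul]
    calc (1 / k ^ 4) * ∫ x in (0:ℝ)..1, ‖D S x‖ ^ 4
        ≤ (1 / k ^ 4) * ((2 * k ^ 3 + k) / 3) := by
          gcongr
          exact integral_D_four S
      _ = (1 / k) * (2 / 3 + 1 / (3 * k ^ 2)) := by field_simp
      _ ≤ (1 / k) * (2 / 3 + 1 / 768) := by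
          have : (768 : ℝ) ≤ 3 * k ^ 2 := by nlinarith
          gcongr
  have hphi := phi_nonneg ha0
  have hfin : L2 (fun x => (1 - q (e 1 x)).re) ^ 2 ≤ 1.32202 / k - 0.000003 / k := by
    rw [hkey]
    have h1 : 1 / (50000 * k) = 0.00002 / k := by field_simp; norm_num
    rw [h1] at haU
    rw [hm2] at hG
    have h2 : 1.57652 * (1 / k) + 1.598 * ((1 / k) * (2 / 3 + 1 / 768)) + 2 * (0.00002 / k)
        ≤ 2 * (1.32202 / k - 0.000003 / k) := by
      rw [show 1.57652 * (1 / k) + 1.598 * ((1 / k) * (2 / 3 + 1 / 768)) + 2 * (0.00002 / k)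
        = (1.57652 + 1.598 * (2 / 3 + 1 / 768) + 2 * 0.00002) / k by ring,
        show 2 * (1.32202 / k - 0.000003 / k) = (2 * (1.32202 - 0.000003)) / k by ring]
      gcongr
      norm_num
    nlinarith
  have hsq : Real.sqrt k ^ 2 = k := Real.sq_sqrt hk0.le
  have hsk : 0 < Real.sqrt k := Real.sqrt_pos.2 hk0
  have h3 : L2 (fun x => (1 - q (e 1 x)).re) ^ 2 ≤ (1.14979 / Real.sqrt k) ^ 2 := by
    rw [div_pow, hsq]
    refine hfin.trans ?_
    rw [show 1.32202 / k - 0.000003 / k = (1.32202 - 0.000003) / k by ring]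
    gcongr
    norm_num
  exact (sq_le_sq₀ (L2_nonneg _) (by positivity)).1 h3

end Pool.Littlewood
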