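import Mathlib

/-!
# MP_25630e_an: analytic trigonometric polynomials and their exponentials
-/

set_option autoImplicit false

namespace Pool.Agent.LitCon

open MeasureTheory AddCircle ComplexConjugate

/-- The normalised mean. -/
noncomputable def mean : C(UnitAddCircle, ℂ) →L[ℂ] ℂ :=
  LinearMap.mkContinuous
    { toFun := fun g => ∫ x, g x ∂(haarAddCircle (T := (1:ℝ)))
      map_add' := fun g h => by
        simp only [ContinuousMap.coe_add, Pi.add_apply]
        exact integral_add (g.continuous.integrable_of_hasCompactSupport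
          (HasCompactSupport.of_compactSpace _)) (h.continuous.integrable_of_hasCompactSupport
          (HasCompactSupport.of_compactSpace _))
      map_smul' := fun c g => by
        simp only [ContinuousMap.coe_smul, Pi.smul_apply, smul_eq_mul, RingHom.id_apply]
        exact integral_const_mul _ _ } 1
    (fun g => by
      have := norm_integral_le_of_norm_le_const (μ := haarAddCircle (T := (1:ℝ))) (f := g)
        (C := ‖g‖) (Filter.Eventually.of_forall fun x => g.norm_coe_le_norm x)
      simpa using this)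

lemma mean_apply (g : C(UnitAddCircle, ℂ)) :
    mean g = ∫ x, g x ∂(haarAddCircle (T := (1:ℝ))) := rfl

lemma mean_one : mean 1 = 1 := by
  rw [mean_apply]; simp

lemma mean_fourier (n : ℤ) (hn : n ≠ 0) : mean (fourier n) = 0 := by
  rw [mean_apply]
  exact integral_eq_zero_of_add_right_eq_neg (μ := haarAddCircle)
      (fourier_add_half_inv_index hn (by norm_num))

lemma fourier_mul (m n : ℤ) : (fourier m : C(UnitAddCircle, ℂ)) * fourier n = fourier (m + n) := by
  ext x
  rw [ContinuousMap.mul_apply, fourier_add]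

lemma fourier_zero_eq : (fourier 0 : C(UnitAddCircle, ℂ)) = 1 := by
  ext x
  rw [fourier_zero]; rfl

/-- The algebra of analytic trigonometric polynomials (spectrum in the nonpositive integers). -/
noncomputable def Ana : Subalgebra ℂ C(UnitAddCircle, ℂ) := Algebra.adjoin ℂ {fourier (-1)}

lemma fourier_pow (n : ℕ) : (fourier (-1) : C(UnitAddCircle, ℂ)) ^ n = fourier (-(n : ℤ)) := by
  induction n with
  | zero => simp [fourier_zero_eq]
  | succ n ih =>
    rw [pow_succ, ih, fourier_mul]
    congr 1; push_cast; ring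

lemma fourier_mem_ana (n : ℤ) (hn : n ≤ 0) : (fourier n : C(UnitAddCircle, ℂ)) ∈ Ana := by
  obtain ⟨k, hk⟩ := Int.eq_ofNat_of_zero_le (a := -n) (by omega)
  have : n = -(k : ℤ) := by omega
  rw [this, ← fourier_pow]
  exact Subalgebra.pow_mem _ (Algebra.subset_adjoin (Set.mem_singleton _)) k

lemma mean_aeval (p : Polynomial ℂ) :
    mean (Polynomial.aeval (fourier (-1) : C(UnitAddCircle, ℂ)) p) = p.coeff 0 := by
  induction p using Polynomial.induction_on' with
  | add p q hp hq => rw [map_add, map_add, hp, hq, Polynomial.coeff_add]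
  | monomial n a =>
    rw [Polynomial.aeval_monomial, fourier_pow, ← Algebra.smul_def, map_smul]
    rcases Nat.eq_zero_or_pos n with h | h
    · subst h
      simp [fourier_zero_eq, mean_one]
    · rw [mean_fourier _ (by omega), Polynomial.coeff_monomial, if_neg (by omega), smul_zero]

lemma mean_mul_ana {g h : C(UnitAddCircle, ℂ)} (hg : g ∈ Ana) (hh : h ∈ Ana) :
    mean (g * h) = mean g * mean h := by
  unfold Ana at hg hh
  rw [Algebra.adjoin_singleton_eq_range_aeval] at hg hh
  obtain ⟨p, hp⟩ := hg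
  obtain ⟨q, hq⟩ := hh
  have hp' : Polynomial.aeval (fourier (-1) : C(UnitAddCircle, ℂ)) p = g := hp
  have hq' : Polynomial.aeval (fourier (-1) : C(UnitAddCircle, ℂ)) q = h := hq
  rw [← hp', ← hq', ← map_mul, mean_aeval, mean_aeval, mean_aeval, Polynomial.mul_coeff_zero]

lemma mean_pow_mul_ana {g h : C(UnitAddCircle, ℂ)} (hg : g ∈ Ana) (hh : h ∈ Ana) (n : ℕ) :
    mean (g ^ n * h) = mean g ^ n * mean h := by
  induction n with
  | zero => simp
  | succ n ih =>
    rw [pow_succ, mul_right_comm, mean_mul_ana _ hg, ih]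
    · ring
    · exact Subalgebra.mul_mem _ (Subalgebra.pow_mem _ hg n) hh

/-- Pointwise exponential. -/
noncomputable def expC (g : C(UnitAddCircle, ℂ)) : C(UnitAddCircle, ℂ) :=
  ⟨fun x => Complex.exp (g x), by fun_prop⟩

lemma expC_hasSum (g : C(UnitAddCircle, ℂ)) :
    HasSum (fun n : ℕ => ((n.factorial : ℂ)⁻¹) • g ^ n) (expC g) := by
  have hs : Summable (fun n : ℕ => ((n.factorial : ℂ)⁻¹) • g ^ n) :=
    NormedSpace.expSeries_summable' (𝕂 := ℂ) g
  have h := hs.hasSum
  convert h using 1
  ext x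
  have h1 := h.mapL (ContinuousMap.evalCLM ℂ x)
  have h2 : HasSum (fun n : ℕ => ((n.factorial : ℂ)⁻¹) • (g x) ^ n) (Complex.exp (g x)) := by
    rw [Complex.exp_eq_exp_ℂ]
    exact NormedSpace.exp_series_hasSum_exp' (𝕂 := ℂ) (g x)
  exact h2.unique h1

lemma mean_expC_mul {g h : C(UnitAddCircle, ℂ)} (hg : g ∈ Ana) (hh : h ∈ Ana) :
    mean (expC g * h) = Complex.exp (mean g) * mean h := by
  have h1 := (expC_hasSum g).mul_right h
  have h2 := h1.mapL mean
  have h3 : HasSum (fun n : ℕ => ((n.factorial : ℂ)⁻¹) • (mean g) ^ n) (Complex.exp (mean g)) := by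
    rw [Complex.exp_eq_exp_ℂ]
    exact NormedSpace.exp_series_hasSum_exp' (𝕂 := ℂ) (mean g)
  have h4 := h3.mul_right (mean h)
  have h5 : (fun n : ℕ => mean (((n.factorial : ℂ)⁻¹) • g ^ n * h))
      = (fun n : ℕ => ((n.factorial : ℂ)⁻¹) • (mean g) ^ n * mean h) := by
    funext n
    rw [smul_mul_assoc, map_smul, mean_pow_mul_ana hg hh, smul_mul_assoc]
  rw [h5] at h2
  exact h2.unique h4

lemma span_decomp (p : C(UnitAddCircle, ℂ)) (hp : p ∈ Submodule.span ℂ (Set.range (@fourier 1))) :
    ∃ z ∈ Ana, ∃ w ∈ Ana, ∀ x, p x = z x + conj (w x) := by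
  induction hp using Submodule.span_induction with
  | mem p hp =>
    obtain ⟨n, rfl⟩ := hp
    rcases le_or_gt n 0 with h | h
    · exact ⟨fourier n, fourier_mem_ana n h, 0, Subalgebra.zero_mem _, fun x => by simp⟩
    · refine ⟨0, Subalgebra.zero_mem _, fourier (-n), fourier_mem_ana (-n) (by omega), fun x => ?_⟩
      rw [fourier_neg, Complex.conj_conj, ContinuousMap.zero_apply, zero_add]
  | zero => exact ⟨0, Subalgebra.zero_mem _, 0, Subalgebra.zero_mem _, fun x => by simp⟩
  | add p q _ _ hp hq =>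
    obtain ⟨z, hz, w, hw, h⟩ := hp
    obtain ⟨z', hz', w', hw', h'⟩ := hq
    refine ⟨z + z', Subalgebra.add_mem _ hz hz', w + w', Subalgebra.add_mem _ hw hw', fun x => ?_⟩
    simp only [ContinuousMap.add_apply, map_add, h x, h' x]; ring
  | smul c p _ hp =>
    obtain ⟨z, hz, w, hw, h⟩ := hp
    refine ⟨c • z, Subalgebra.smul_mem _ hz c, (conj c) • w, Subalgebra.smul_mem _ hw _,
      fun x => ?_⟩
    simp only [ContinuousMap.smul_apply, smul_eq_mul, map_mul, h x, Complex.conj_conj]; ring

/-- Every continuous real function is, up to `η` from above, the real part of an analytic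
trigonometric polynomial with real mean. -/
theorem exists_ana (ψ : C(UnitAddCircle, ℝ)) (η : ℝ) (hη : 0 < η) :
    ∃ z ∈ Ana, (∀ x, ψ x ≤ (z x).re ∧ (z x).re ≤ ψ x + η) ∧ (mean z).im = 0 := by
  set f : C(UnitAddCircle, ℂ) := ⟨fun x => ((ψ x + η / 2 : ℝ) : ℂ), by fun_prop⟩ with hf
  have hmem : f ∈ closure (Submodule.span ℂ (Set.range (@fourier 1)) : Set C(UnitAddCircle, ℂ)) := by
    have := (span_fourier_closure_eq_top (T := (1:ℝ)))
    have h2 : f ∈ (Submodule.span ℂ (Set.range (@fourier 1))).topologicalClosure := by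
      rw [this]; trivial
    exact h2
  obtain ⟨p, hp, hpf⟩ := Metric.mem_closure_iff.1 hmem (η / 2) (by linarith)
  obtain ⟨z, hz, w, hw, h⟩ := span_decomp p hp
  set c : ℂ := ((mean (z + w)).im : ℂ) * Complex.I with hc
  refine ⟨z + w - algebraMap ℂ C(UnitAddCircle, ℂ) c,
    Subalgebra.sub_mem _ (Subalgebra.add_mem _ hz hw) (Subalgebra.algebraMap_mem _ c), ?_, ?_⟩
  · intro x
    have h1 : ‖f x - p x‖ < η / 2 := by
      rw [dist_eq_norm] at hpf
      exact lt_of_le_of_lt ((f - p).norm_coe_le_norm x) hpf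
    have h2 := (Complex.abs_re_le_norm (f x - p x)).trans_lt h1
    have h3 : (f x).re = ψ x + η / 2 := by simp [hf]
    have h4 : ((z + w - algebraMap ℂ C(UnitAddCircle, ℂ) c) x).re = (p x).re := by
      rw [h x]
      simp [hc, Algebra.algebraMap_eq_smul_one]
    rw [Complex.sub_re, h3, abs_lt] at h2
    rw [h4]
    constructor <;> linarith [h2.1, h2.2]
  · have h5 : mean (algebraMap ℂ C(UnitAddCircle, ℂ) c) = c := by
      rw [Algebra.algebraMap_eq_smul_one, map_smul, mean_one, smul_eq_mul, mul_one]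
    rw [map_sub, h5, hc]
    simp

end Pool.Agent.LitCon
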