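import Pool.Agent.Lib_MP_25630e_an.Sel
import Pool.Agent.Lib_MP_25630e_an.Four

/-!
# MP_25630e_an: the L¹ norm of an exponential sum with `≥ 2^(K-1)` frequencies is `≥ 0.195 K`
-/

set_option autoImplicit false

namespace Pool.Agent.LitCon

open MeasureTheory AddCircle ComplexConjugate Finset

/-- The exponential sum over `B`. -/
noncomputable def DD (B : Finset ℤ) : C(UnitAddCircle, ℂ) := ∑ b ∈ B, fourier b

/-- Its complex conjugate. -/
noncomputable def DDc (B : Finset ℤ) : C(UnitAddCircle, ℂ) := ∑ b ∈ B, fourier (-b)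

lemma DD_apply (B : Finset ℤ) (x : UnitAddCircle) : DD B x = ∑ b ∈ B, fourier b x := by
  simp [DD, ContinuousMap.sum_apply]

lemma DDc_apply (B : Finset ℤ) (x : UnitAddCircle) : DDc B x = conj (DD B x) := by
  rw [DD_apply, map_sum, DDc, ContinuousMap.sum_apply]
  exact Finset.sum_congr rfl fun b _ => fourier_neg

lemma norm_DD_le (B : Finset ℤ) (x : UnitAddCircle) : ‖DD B x‖ ≤ B.card := by
  rw [DD_apply]
  refine (norm_sum_le _ _).trans ?_
  have : ∀ b ∈ B, ‖(fourier b : C(UnitAddCircle, ℂ)) x‖ ≤ 1 := fun b _ => by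
    rw [fourier_apply]; exact (Circle.norm_coe _).le
  refine (Finset.sum_le_sum this).trans ?_
  simp

lemma integrable_of_cont {E : Type*} [NormedAddCommGroup E] {f : UnitAddCircle → E}
    (hf : Continuous f) : Integrable f (haarAddCircle (T := (1:ℝ))) :=
  hf.integrable_of_hasCompactSupport (HasCompactSupport.of_compactSpace _)

lemma mean_block (A B : Finset ℤ) (hBA : B ⊆ A) (h : ∀ a ∈ A \ B, ∀ b ∈ B, b < a)
    (z : C(UnitAddCircle, ℂ)) (hz : z ∈ Ana) :
    mean (DDc A * DD B * expC z) = mean (DDc B * DD B * expC z) := by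
  have e1 : DDc A = DDc (A \ B) + DDc B := by
    unfold DDc
    rw [Finset.sum_sdiff hBA]
  have e2 : mean (DDc (A \ B) * DD B * expC z) = 0 := by
    have e3 : DDc (A \ B) * DD B * expC z
        = ∑ a ∈ A \ B, ∑ b ∈ B, expC z * fourier (-a + b) := by
      unfold DDc DD
      rw [Finset.sum_mul_sum, Finset.sum_mul]
      refine Finset.sum_congr rfl fun a _ => ?_
      rw [Finset.sum_mul]
      refine Finset.sum_congr rfl fun b _ => ?_
      rw [fourier_mul, mul_comm]
    rw [e3, map_sum]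
    refine Finset.sum_eq_zero fun a ha => ?_
    rw [map_sum]
    refine Finset.sum_eq_zero fun b hb => ?_
    have hlt := h a ha b hb
    rw [mean_expC_mul hz (fourier_mem_ana _ (by omega)), mean_fourier _ (by omega), mul_zero]
  rw [e1, add_mul, add_mul, map_add, e2, zero_add]

lemma mean_energy (B : Finset ℤ) : mean (DDc B * DD B) = B.card := by
  have e3 : DDc B * DD B = ∑ a ∈ B, ∑ b ∈ B, fourier (-a + b) := by
    unfold DDc DD
    rw [Finset.sum_mul_sum]
    refine Finset.sum_congr rfl fun a _ => Finset.sum_congr rfl fun b _ => ?_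
    rw [fourier_mul]
  have e4 : ∀ a ∈ B, ∑ b ∈ B, mean (fourier (-a + b)) = 1 := by
    intro a ha
    rw [Finset.sum_eq_single a]
    · rw [neg_add_cancel, fourier_zero_eq, mean_one]
    · intro b _ hba
      exact mean_fourier _ (by omega)
    · intro h; exact absurd ha h
  rw [e3, map_sum]
  have : ∀ a ∈ B, mean (∑ b ∈ B, fourier (-a + b)) = 1 := fun a ha => by
    rw [map_sum, e4 a ha]
  rw [Finset.sum_congr rfl this]
  simp

lemma conj_mul_self_eq (B : Finset ℤ) (x : UnitAddCircle) :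
    (DDc B * DD B) x = ((‖DD B x‖ ^ 2 : ℝ) : ℂ) := by
  rw [ContinuousMap.mul_apply, DDc_apply, Complex.conj_mul']
  push_cast; rfl

lemma integral_energy (B : Finset ℤ) :
    ∫ x, ‖DD B x‖ ^ 2 ∂(haarAddCircle (T := (1:ℝ))) = B.card := by
  have h := mean_energy B
  rw [mean_apply] at h
  simp only [conj_mul_self_eq] at h
  have h2 : ∫ x, ((‖DD B x‖ ^ 2 : ℝ) : ℂ) ∂(haarAddCircle (T := (1:ℝ)))
      = ((∫ x, ‖DD B x‖ ^ 2 ∂(haarAddCircle (T := (1:ℝ))) : ℝ) : ℂ) := integral_ofReal
  have h3 := h2.symm.trans h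
  exact_mod_cast h3

/-- Real part of a mean. -/
lemma re_mean (g : C(UnitAddCircle, ℂ)) :
    (mean g).re = ∫ x, (g x).re ∂(haarAddCircle (T := (1:ℝ))) := by
  rw [mean_apply]
  exact (integral_re (integrable_of_cont g.continuous)).symm

/-- Jensen step. -/
lemma jensen (z : C(UnitAddCircle, ℂ)) (hz : z ∈ Ana) (him : (mean z).im = 0)
    (y : UnitAddCircle → ℝ) (hy : Continuous y) (hy0 : ∀ x, 0 ≤ y x) (hy1 : ∀ x, y x ≤ 1) :
    ∫ x, (1 - (z x).re - (1 - y x ^ 2) * Real.exp (-(z x).re)) ∂(haarAddCircle (T := (1:ℝ)))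
      ≤ ∫ x, y x ^ 2 * (expC (-z) x).re ∂(haarAddCircle (T := (1:ℝ))) := by
  have hm : mean (expC (-z)) = Complex.exp (-(mean z)) := by
    have := mean_expC_mul (g := -z) (h := 1) (Subalgebra.neg_mem _ hz) (Subalgebra.one_mem _)
    rwa [mul_one, mean_one, mul_one, map_neg] at this
  have hm2 : mean z = ((∫ x, (z x).re ∂(haarAddCircle (T := (1:ℝ))) : ℝ) : ℂ) := by
    apply Complex.ext
    · rw [re_mean]; simp
    · rw [him]; simp
  have h1 : 1 - ∫ x, (z x).re ∂(haarAddCircle (T := (1:ℝ)))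
      ≤ ∫ x, (expC (-z) x).re ∂(haarAddCircle (T := (1:ℝ))) := by
    have h0 := re_mean (expC (-z))
    rw [hm, hm2, ← Complex.ofReal_neg, ← Complex.ofReal_exp, Complex.ofReal_re] at h0
    rw [← h0]
    have := Real.add_one_le_exp (-(∫ x, (z x).re ∂(haarAddCircle (T := (1:ℝ)))))
    linarith
  have hc : Continuous (fun x => (z x).re) := by fun_prop
  have hE : Continuous (fun x => (expC (-z) x).re) := by fun_prop
  have i1 : Integrable (fun x => (z x).re) (haarAddCircle (T := (1:ℝ))) := integrable_of_cont hc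
  have i2 : Integrable (fun x => (1 - y x ^ 2) * Real.exp (-(z x).re))
      (haarAddCircle (T := (1:ℝ))) := integrable_of_cont (by fun_prop)
  have i3 : Integrable (fun x => (expC (-z) x).re) (haarAddCircle (T := (1:ℝ))) :=
    integrable_of_cont hE
  have h2 : ∫ x, ((expC (-z) x).re - (1 - y x ^ 2) * Real.exp (-(z x).re))
      ∂(haarAddCircle (T := (1:ℝ))) ≤
      ∫ x, y x ^ 2 * (expC (-z) x).re ∂(haarAddCircle (T := (1:ℝ))) := by
    refine integral_mono (i3.sub i2) (integrable_of_cont (by fun_prop)) fun x => ?_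
    have h3 : (expC (-z) x).re ≤ Real.exp (-(z x).re) := by
      refine (Complex.re_le_norm _).trans (le_of_eq ?_)
      change ‖Complex.exp ((-z) x)‖ = _
      rw [Complex.norm_exp]; rfl
    have h4 : 0 ≤ 1 - y x ^ 2 := by nlinarith [hy0 x, hy1 x]
    have := mul_le_mul_of_nonneg_left h3 h4
    simp only
    linarith
  refine le_trans ?_ h2
  have i4 : Integrable (fun x => 1 - (z x).re) (haarAddCircle (T := (1:ℝ))) :=
    integrable_of_cont (by fun_prop)
  have e1 := integral_sub i3 i2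
  have e2 := integral_sub i4 i2
  have e3 := integral_sub (integrable_const (1:ℝ)) i1
  simp only [integral_const, probReal_univ, smul_eq_mul, mul_one] at e3
  rw [e1, e2, e3]
  linarith

/-- Initial segments. -/
lemma exists_initial (A : Finset ℤ) : ∀ m ≤ A.card, ∃ B ⊆ A, B.card = m ∧
    ∀ a ∈ A \ B, ∀ b ∈ B, b < a := by
  intro m
  induction m with
  | zero => intro _; exact ⟨∅, Finset.empty_subset _, rfl, by simp⟩
  | succ m ih =>
    intro hm
    obtain ⟨B, hB, hc, hlt⟩ := ih (by omega)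
    have hne : (A \ B).Nonempty := by
      rw [← Finset.card_pos, Finset.card_sdiff_of_subset hB]; omega
    set c := (A \ B).min' hne with hcdef
    have hcm : c ∈ A \ B := Finset.min'_mem _ _
    have hcA := (Finset.mem_sdiff.1 hcm).1
    have hcB := (Finset.mem_sdiff.1 hcm).2
    refine ⟨insert c B, Finset.insert_subset hcA hB, ?_, ?_⟩
    · rw [Finset.card_insert_of_notMem hcB, hc]
    · intro a ha b hb
      have ha1 := (Finset.mem_sdiff.1 ha).1
      have ha2 := (Finset.mem_sdiff.1 ha).2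
      rw [Finset.mem_insert, not_or] at ha2
      have ha3 : a ∈ A \ B := Finset.mem_sdiff.2 ⟨ha1, ha2.2⟩
      rcases Finset.mem_insert.1 hb with h | h
      · subst h
        exact lt_of_le_of_ne (Finset.min'_le _ _ ha3) (Ne.symm ha2.1)
      · exact hlt a ha3 b h

/-- Main estimate with an error parameter. -/
lemma main_eps (A : Finset ℤ) (K : ℕ) (hK : ∀ j < K, 2 ^ j ≤ A.card) (e : ℝ) (he : 0 < e) :
    1 / 4 * (39 / 50 * K - 2 * e) ≤
      (1 + e) * ∫ x, ‖DD A x‖ ∂(haarAddCircle (T := (1:ℝ))) := by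
  -- initial segments
  have hex : ∀ j : ℕ, ∃ B : Finset ℤ, j < K → (B ⊆ A ∧ B.card = 2 ^ j ∧
      ∀ a ∈ A \ B, ∀ b ∈ B, b < a) := by
    intro j
    by_cases hj : j < K
    · obtain ⟨B, h1, h2, h3⟩ := exists_initial A (2 ^ j) (hK j hj)
      exact ⟨B, fun _ => ⟨h1, h2, h3⟩⟩
    · exact ⟨∅, fun h => absurd h hj⟩
  choose B hB using hex
  set y : ℕ → UnitAddCircle → ℝ := fun j x => min 1 (‖DD (B j) x‖ / 2 ^ j) with hy
  have hyc : ∀ j, Continuous (y j) := by
    intro j
    simp only [hy]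
    fun_prop
  have hy0 : ∀ j x, 0 ≤ y j x := fun j x => le_min zero_le_one (by positivity)
  have hy1 : ∀ j x, y j x ≤ 1 := fun j x => min_le_left _ _
  have hyeq : ∀ j < K, ∀ x, y j x = ‖DD (B j) x‖ / 2 ^ j := by
    intro j hj x
    refine min_eq_right ?_
    rw [div_le_one (by positivity)]
    have := norm_DD_le (B j) x
    rw [(hB j hj).2.1] at this
    exact_mod_cast this
  obtain ⟨v, hv⟩ := exists_cont K y hyc hy0 hy1 e he
  have hz : ∀ j : ℕ, ∃ z ∈ Ana, (∀ x, v j x ≤ (z x).re ∧ (z x).re ≤ v j x + e / 2 ^ K) ∧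
      (mean z).im = 0 := fun j => exists_ana (v j) (e / 2 ^ K) (by positivity)
  choose z hzA hzr hzm using hz
  -- the test function
  set F : C(UnitAddCircle, ℂ) :=
    ∑ j ∈ range K, ((1 / (4 * 2 ^ j) : ℝ) : ℂ) • (DD (B j) * expC (-(z j))) with hF
  have hnorm : ∀ x, ‖F x‖ ≤ 1 + e := by
    intro x
    have h1 : F x = ∑ j ∈ range K, ((1 / (4 * 2 ^ j) : ℝ) : ℂ) * (DD (B j) x *
        Complex.exp (-(z j x))) := by
      rw [hF, ContinuousMap.sum_apply]; rfl
    rw [h1]
    refine (norm_sum_le _ _).trans (le_trans ?_ (hv x).1.le)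
    unfold cons
    rw [Finset.mul_sum]
    refine Finset.sum_le_sum fun j hj => ?_
    have hj' := Finset.mem_range.1 hj
    change _ ≤ 1 / 4 * (y j x * Real.exp (-(v j x)))
    rw [norm_mul, norm_mul, Complex.norm_real, Real.norm_of_nonneg (by positivity),
      Complex.norm_exp, hyeq j hj' x]
    have h2 : Real.exp ((-(z j x)).re) ≤ Real.exp (-(v j x)) := by
      apply Real.exp_le_exp.2
      rw [Complex.neg_re]
      linarith [(hzr j x).1]
    have h3 : 1 / (4 * 2 ^ j) * (‖DD (B j) x‖ * Real.exp ((-(z j x)).re))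
        = (1 / 4 * (‖DD (B j) x‖ / 2 ^ j)) * Real.exp ((-(z j x)).re) := by
      field_simp
    rw [h3, ← mul_assoc]
    exact mul_le_mul_of_nonneg_left h2 (by positivity)
  -- upper bound
  have hup : (mean (DDc A * F)).re ≤ (1 + e) * ∫ x, ‖DD A x‖ ∂(haarAddCircle (T := (1:ℝ))) := by
    refine (Complex.re_le_norm _).trans ?_
    rw [mean_apply, ← integral_const_mul]
    refine (norm_integral_le_integral_norm _).trans ?_
    refine integral_mono (integrable_of_cont (by fun_prop)) (integrable_of_cont (by fun_prop))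
      fun x => ?_
    simp only [ContinuousMap.mul_apply, norm_mul, DDc_apply, RCLike.norm_conj]
    rw [mul_comm]
    exact mul_le_mul_of_nonneg_right (hnorm x) (norm_nonneg _)
  refine le_trans ?_ hup
  -- expansion
  have hexp : (mean (DDc A * F)).re = 1 / 4 * ∑ j ∈ range K, (2:ℝ) ^ j *
      ∫ x, y j x ^ 2 * (expC (-(z j)) x).re ∂(haarAddCircle (T := (1:ℝ))) := by
    rw [hF, Finset.mul_sum, map_sum, Complex.re_sum, Finset.mul_sum]
    refine Finset.sum_congr rfl fun j hj => ?_
    have hj' := Finset.mem_range.1 hj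
    rw [mul_smul_comm, map_smul, smul_eq_mul, Complex.re_ofReal_mul, ← mul_assoc,
      mean_block A (B j) (hB j hj').1 (hB j hj').2.2 _ (Subalgebra.neg_mem _ (hzA j)), re_mean]
    have h5 : ∀ x, ((DDc (B j) * DD (B j) * expC (-(z j))) x).re
        = (2 ^ j) ^ 2 * (y j x ^ 2 * (expC (-(z j)) x).re) := by
      intro x
      rw [ContinuousMap.mul_apply, conj_mul_self_eq, Complex.re_ofReal_mul, hyeq j hj' x]
      field_simp
    simp only [h5]
    rw [integral_const_mul]
    field_simp
  rw [hexp]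
  refine mul_le_mul_of_nonneg_left ?_ (by norm_num)
  -- lower bound for each block
  have hlow : ∑ j ∈ range K, (2:ℝ) ^ j *
      ∫ x, (1 - (z j x).re - (1 - y j x ^ 2) * Real.exp (-(z j x).re))
        ∂(haarAddCircle (T := (1:ℝ))) ≤
      ∑ j ∈ range K, (2:ℝ) ^ j *
      ∫ x, y j x ^ 2 * (expC (-(z j)) x).re ∂(haarAddCircle (T := (1:ℝ))) := by
    refine Finset.sum_le_sum fun j _ => mul_le_mul_of_nonneg_left ?_ (by positivity)
    exact jensen (z j) (hzA j) (hzm j) (y j) (hyc j) (hy0 j) (hy1 j)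
  refine le_trans ?_ hlow
  have hci : ∀ j, Continuous (fun x => (z j x).re) := fun j => by fun_prop
  have hI : ∀ j ∈ range K, Integrable (fun x => (2:ℝ) ^ j *
      (1 - (z j x).re - (1 - y j x ^ 2) * Real.exp (-(z j x).re))) (haarAddCircle (T := (1:ℝ))) := by
    intro j _
    refine integrable_of_cont ?_
    have := hyc j
    have := hci j
    fun_prop
  have e1 : ∑ j ∈ range K, (2:ℝ) ^ j *
      ∫ x, (1 - (z j x).re - (1 - y j x ^ 2) * Real.exp (-(z j x).re))
        ∂(haarAddCircle (T := (1:ℝ)))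
      = ∫ x, ∑ j ∈ range K, (2:ℝ) ^ j *
        (1 - (z j x).re - (1 - y j x ^ 2) * Real.exp (-(z j x).re))
        ∂(haarAddCircle (T := (1:ℝ))) := by
    rw [integral_finsetSum _ hI]
    refine Finset.sum_congr rfl fun j _ => ?_
    rw [integral_const_mul]
  rw [e1]
  have e2 : ∫ x, (energy K (fun j => y j x) - 2 * e) ∂(haarAddCircle (T := (1:ℝ)))
      = 39 / 50 * K - 2 * e := by
    unfold energy
    have hI2 : ∀ j ∈ range K, Integrable (fun x => (2:ℝ) ^ j * y j x ^ 2)
        (haarAddCircle (T := (1:ℝ))) := fun j _ => by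
      refine integrable_of_cont ?_
      have := hyc j
      fun_prop
    rw [integral_sub ((integrable_finsetSum _ hI2).const_mul _) (integrable_const _),
      integral_const_mul, integral_finsetSum _ hI2]
    have h6 : ∀ j ∈ range K, ∫ x, (2:ℝ) ^ j * y j x ^ 2 ∂(haarAddCircle (T := (1:ℝ))) = 1 := by
      intro j hj
      have hj' := Finset.mem_range.1 hj
      rw [integral_const_mul]
      have h7 : ∀ x, y j x ^ 2 = ((2 ^ j) ^ 2)⁻¹ * ‖DD (B j) x‖ ^ 2 := by
        intro x
        rw [hyeq j hj' x]; field_simp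
      simp only [h7]
      rw [integral_const_mul, integral_energy, (hB j hj').2.1]
      push_cast
      field_simp
    rw [Finset.sum_congr rfl h6]
    simp
  rw [← e2]
  refine integral_mono ?_ (integrable_finsetSum _ hI) fun x => ?_
  · refine integrable_of_cont ?_
    unfold energy
    have := hyc
    fun_prop
  · have hg := (hv x).2
    have h8 : gain K (fun j => y j x) (fun j => v j x) - e
        ≤ ∑ j ∈ range K, (2:ℝ) ^ j *
        (1 - (z j x).re - (1 - y j x ^ 2) * Real.exp (-(z j x).re)) := by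
      have h9 : ∑ j ∈ range K, (2:ℝ) ^ j * (e / 2 ^ K) ≤ e := by
        rw [← Finset.sum_mul, geom_sum_eq (by norm_num)]
        have : (2:ℝ) ^ K > 0 := by positivity
        rw [show ((2:ℝ) ^ K - 1) / (2 - 1) * (e / 2 ^ K) = e - e / 2 ^ K by field_simp; ring]
        have : 0 ≤ e / 2 ^ K := by positivity
        linarith
      have h10 : gain K (fun j => y j x) (fun j => v j x)
          - ∑ j ∈ range K, (2:ℝ) ^ j * (e / 2 ^ K) ≤ ∑ j ∈ range K, (2:ℝ) ^ j *
        (1 - (z j x).re - (1 - y j x ^ 2) * Real.exp (-(z j x).re)) := by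
        unfold gain
        rw [← Finset.sum_sub_distrib]
        refine Finset.sum_le_sum fun j _ => ?_
        rw [← mul_sub]
        refine mul_le_mul_of_nonneg_left ?_ (by positivity)
        have h11 : Real.exp (-(z j x).re) ≤ Real.exp (-(v j x)) :=
          Real.exp_le_exp.2 (by linarith [(hzr j x).1])
        have h12 : 0 ≤ 1 - y j x ^ 2 := by nlinarith [hy0 j x, hy1 j x]
        have h13 := mul_le_mul_of_nonneg_left h11 h12
        linarith [(hzr j x).2]
      linarith
    simp only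
    linarith

/-- `‖1̂_A‖₁ ≥ 0.195 K` as soon as `|A| ≥ 2^(K-1)`. -/
theorem main_circle (A : Finset ℤ) (K : ℕ) (hK : ∀ j < K, 2 ^ j ≤ A.card) :
    39 / 200 * (K : ℝ) ≤ ∫ x, ‖DD A x‖ ∂(haarAddCircle (T := (1:ℝ))) := by
  set I := ∫ x, ‖DD A x‖ ∂(haarAddCircle (T := (1:ℝ))) with hI
  have hI0 : 0 ≤ I := integral_nonneg fun x => norm_nonneg _
  by_contra hlt
  push Not at hlt
  set d := 39 / 200 * (K : ℝ) - I with hd
  have hd0 : 0 < d := by linarith
  have h := main_eps A K hK (d / (2 * (1 + I))) (by positivity)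
  have h2 : d / (2 * (1 + I)) * I ≤ d / 2 := by
    rw [div_mul_eq_mul_div, div_le_div_iff₀ (by positivity) (by norm_num)]
    nlinarith
  have h3 : 2 * (d / (2 * (1 + I))) ≤ d := by
    rw [show 2 * (d / (2 * (1 + I))) = d / (1 + I) by field_simp]
    rw [div_le_iff₀ (by linarith)]
    nlinarith
  rw [← hI] at h
  nlinarith

end Pool.Agent.LitCon
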