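import Mathlib

/-!
# MP_25630e_an: the one-variable inequalities

`Th` is a bounded potential with
`log (1 - y² + t y) + 0.78 y² ≤ t (Th t - Th (t/2))` for all `t > 0`, `0 ≤ y ≤ 1`.
-/

set_option autoImplicit false

namespace Pool.Agent.LitCon

open Real

/-- The potential function. -/
noncomputable def Th (t : ℝ) : ℝ :=
  if t ≤ 1 / 4 then 25 / 11 * t
  else if t ≤ 1 / 2 then (9 / 629) / t + (5000 / 5729 + 25 / 22) * t
  else if t ≤ 25 / 32 then 3 * (9 / 629) / t + (3 / 2 * (5000 / 5729) + 25 / 44) * t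
  else 4 - (log t + 39 / 50 + 2 * log 2) / t

lemma log_le_neg (t : ℝ) (ht : 0 < t) (h1 : t ≤ 1) : log t ≤ -(2 * (1 - t) / (1 + t)) := by
  have h := Real.le_log_one_add_of_nonneg (x := (1 - t) / t) (by
    apply div_nonneg <;> linarith)
  have e1 : 1 + (1 - t) / t = t⁻¹ := by field_simp; ring
  have e2 : 2 * ((1 - t) / t) / ((1 - t) / t + 2) = 2 * (1 - t) / (1 + t) := by
    have : (1 - t) / t + 2 = (1 + t) / t := by field_simp; ring
    rw [this]; field_simp
  rw [e1, e2, Real.log_inv] at h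
  linarith

lemma log_le_sinh (t : ℝ) (h1 : 1 ≤ t) : log t ≤ (t - t⁻¹) / 2 := by
  have h := (Real.self_le_sinh_iff (x := log t)).2 (Real.log_nonneg h1)
  rwa [Real.sinh_log (by linarith)] at h

lemma g1 (t y : ℝ) (ht : 0 < t) (hy0 : 0 ≤ y) (hy1 : y ≤ 1) :
    log (1 - y ^ 2 + t * y) + 39 / 50 * y ^ 2 ≤ 25 / 22 * t ^ 2 := by
  have hpos : 0 < 1 - y ^ 2 + t * y := by
    rcases eq_or_lt_of_le hy1 with h | h
    · subst h; nlinarith
    · nlinarith
  have h := Real.log_le_sub_one_of_pos hpos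
  nlinarith [sq_nonneg (t - 11 / 25 * y)]

lemma g2 (t y : ℝ) (ht : 0 < t) (hy0 : 0 ≤ y) (hy1 : y ≤ 1) :
    log (1 - y ^ 2 + t * y) + 39 / 50 * y ^ 2 ≤ 9 / 629 + 5000 / 5729 * t ^ 2 := by
  have hpos : 0 < 1 - y ^ 2 + t * y := by
    rcases eq_or_lt_of_le hy1 with h | h
    · subst h; nlinarith
    · nlinarith
  have h := Real.log_le_sub_one_of_pos (x := (20 / 17) * (1 - y ^ 2 + t * y)) (by positivity)
  rw [Real.log_mul (by norm_num) hpos.ne'] at h
  have h2 := log_le_neg (17 / 20) (by norm_num) (by norm_num)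
  have h3 : log (20 / 17) = - log (17 / 20) := by
    rw [← Real.log_inv]; norm_num
  rw [h3] at h
  norm_num at h2
  nlinarith [sq_nonneg (t * (5000 / 5729) - (10 / 17) * y)]

lemma g3 (t y : ℝ) (ht : 25 / 32 ≤ t) (hy0 : 0 ≤ y) (hy1 : y ≤ 1) :
    log (1 - y ^ 2 + t * y) + 39 / 50 * y ^ 2 ≤ log t + 39 / 50 := by
  have ht0 : 0 < t := by linarith
  have hpos : 0 < 1 - y ^ 2 + t * y := by
    rcases eq_or_lt_of_le hy1 with h | h
    · subst h; nlinarith
    · nlinarith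
  have h := Real.log_le_sub_one_of_pos (x := (1 - y ^ 2 + t * y) / t) (by positivity)
  rw [Real.log_div hpos.ne' ht0.ne'] at h
  have h2 : (1 - y ^ 2 + t * y) / t = (1 - y ^ 2) * t⁻¹ + y := by field_simp
  rw [h2] at h
  have h3 : t⁻¹ ≤ 32 / 25 := by
    rw [inv_le_comm₀ ht0 (by norm_num)]; linarith
  have h4 : (1 - y ^ 2) * t⁻¹ ≤ (1 - y ^ 2) * (32 / 25) :=
    mul_le_mul_of_nonneg_left h3 (by nlinarith)
  nlinarith

lemma Th_nonneg (t : ℝ) (ht : 0 < t) : 0 ≤ Th t := by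
  unfold Th
  split_ifs with h1 h2 h3
  · positivity
  · positivity
  · positivity
  · push Not at h1 h2 h3
    have hl := Real.log_le_sub_one_of_pos ht
    have h2 := Real.log_two_lt_d9
    rw [sub_nonneg, div_le_iff₀ ht]
    linarith

lemma Th_le (t : ℝ) (ht : 0 < t) : Th t ≤ 4 := by
  unfold Th
  split_ifs with h1 h2 h3
  · linarith
  · push Not at h1
    have : (9 / 629) / t ≤ (9 / 629) / (1 / 4) :=
      div_le_div_of_nonneg_left (by norm_num) (by norm_num) h1.le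
    linarith
  · push Not at h1 h2
    have : 3 * (9 / 629) / t ≤ 3 * (9 / 629) / (1 / 2) :=
      div_le_div_of_nonneg_left (by norm_num) (by norm_num) h2.le
    linarith
  · push Not at h1 h2 h3
    have hl := Real.one_sub_inv_le_log_of_pos ht
    have h4 : t⁻¹ ≤ 32 / 25 := by
      rw [inv_le_comm₀ ht (by norm_num)]; linarith
    have h5 := Real.log_two_gt_d9
    have : 0 ≤ (log t + 39 / 50 + 2 * log 2) / t := by
      apply div_nonneg _ ht.le; linarith
    linarith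

lemma Th_low (t : ℝ) (h : t ≤ 1 / 4) : Th t = 25 / 11 * t := by
  unfold Th; rw [if_pos h]

lemma Th_mid1 (t : ℝ) (h : 1 / 4 < t) (h' : t ≤ 1 / 2) :
    Th t = (9 / 629) / t + (5000 / 5729 + 25 / 22) * t := by
  unfold Th; rw [if_neg (not_le.2 h), if_pos h']

lemma Th_mid2 (t : ℝ) (h : 1 / 2 < t) (h' : t ≤ 25 / 32) :
    Th t = 3 * (9 / 629) / t + (3 / 2 * (5000 / 5729) + 25 / 44) * t := by
  unfold Th
  rw [if_neg (not_le.2 (by linarith)), if_neg (not_le.2 h), if_pos h']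

lemma Th_high (t : ℝ) (h : 25 / 32 < t) :
    Th t = 4 - (log t + 39 / 50 + 2 * log 2) / t := by
  unfold Th
  rw [if_neg (not_le.2 (by linarith)), if_neg (not_le.2 (by linarith)), if_neg (not_le.2 h)]

/-- The decoupled inequality. -/
theorem key (t y : ℝ) (ht : 0 < t) (hy0 : 0 ≤ y) (hy1 : y ≤ 1) :
    log (1 - y ^ 2 + t * y) + 39 / 50 * y ^ 2 ≤ t * (Th t - Th (t / 2)) := by
  rcases le_or_gt t (1 / 4) with h1 | h1
  · rw [Th_low t h1, Th_low (t / 2) (by linarith)]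
    have := g1 t y ht hy0 hy1
    nlinarith
  rcases le_or_gt t (1 / 2) with h2 | h2
  · rw [Th_mid1 t h1 h2, Th_low (t / 2) (by linarith)]
    have := g2 t y ht hy0 hy1
    have e : t * ((9 / 629) / t + (5000 / 5729 + 25 / 22) * t - 25 / 11 * (t / 2))
        = 9 / 629 + 5000 / 5729 * t ^ 2 := by field_simp; ring
    rw [e]; exact this
  rcases le_or_gt t (25 / 32) with h3 | h3
  · rw [Th_mid2 t h2 h3, Th_mid1 (t / 2) (by linarith) (by linarith)]
    have := g2 t y ht hy0 hy1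
    have e : t * (3 * (9 / 629) / t + (3 / 2 * (5000 / 5729) + 25 / 44) * t
        - ((9 / 629) / (t / 2) + (5000 / 5729 + 25 / 22) * (t / 2)))
        = 9 / 629 + 5000 / 5729 * t ^ 2 := by field_simp; ring
    rw [e]; exact this
  have hg := g3 t y h3.le hy0 hy1
  have hl2 := Real.log_two_lt_d9
  refine hg.trans ?_
  rw [Th_high t h3]
  rcases le_or_gt t 1 with h4 | h4
  · rw [Th_mid1 (t / 2) (by linarith) (by linarith)]
    have e : t * (4 - (log t + 39 / 50 + 2 * log 2) / t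
        - ((9 / 629) / (t / 2) + (5000 / 5729 + 25 / 22) * (t / 2)))
        = 4 * t - (log t + 39 / 50 + 2 * log 2) - 2 * (9 / 629)
          - (5000 / 5729 + 25 / 22) / 2 * t ^ 2 := by field_simp; ring
    rw [e]
    have hl := log_le_neg t ht h4
    have h5 : 2 * (1 - t) / (1 + t) ≥ (1 - t) + (1 - t) ^ 2 / 2 := by
      rw [ge_iff_le, le_div_iff₀ (by linarith)]
      nlinarith [mul_nonneg (sub_nonneg.2 h4) (mul_nonneg (sub_nonneg.2 h4) (sub_nonneg.2 h4))]
    nlinarith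
  rcases le_or_gt t (25 / 16) with h5 | h5
  · rw [Th_mid2 (t / 2) (by linarith) (by linarith)]
    have e : t * (4 - (log t + 39 / 50 + 2 * log 2) / t
        - (3 * (9 / 629) / (t / 2) + (3 / 2 * (5000 / 5729) + 25 / 44) * (t / 2)))
        = 4 * t - (log t + 39 / 50 + 2 * log 2) - 6 * (9 / 629)
          - (3 / 2 * (5000 / 5729) + 25 / 44) / 2 * t ^ 2 := by field_simp; ring
    rw [e]
    have hl := log_le_sinh t h4.le
    have h6 : 3 * t + t⁻¹ - (3 / 2 * (5000 / 5729) + 25 / 44) / 2 * t ^ 2 - 30325 / 10000 ≥ 0 := by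
      have : 3 * t ^ 2 + 1 - (3 / 2 * (5000 / 5729) + 25 / 44) / 2 * t ^ 3 - 30325 / 10000 * t ≥ 0 := by
        nlinarith [mul_nonneg (sub_nonneg.2 h4.le) (sub_nonneg.2 h5),
          mul_nonneg (mul_nonneg (sub_nonneg.2 h4.le) (sub_nonneg.2 h5)) (by linarith : (0:ℝ) ≤ t)]
      have h7 : 3 * t + t⁻¹ - (3 / 2 * (5000 / 5729) + 25 / 44) / 2 * t ^ 2 - 30325 / 10000
        = (3 * t ^ 2 + 1 - (3 / 2 * (5000 / 5729) + 25 / 44) / 2 * t ^ 3 - 30325 / 10000 * t) / t := by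
        field_simp
      rw [h7]; exact div_nonneg this ht.le
    linarith
  · rw [Th_high (t / 2) (by linarith), Real.log_div ht.ne' (by norm_num)]
    apply le_of_eq
    field_simp
    ring

/-- Telescoped form. -/
theorem sum_key (K : ℕ) (y : ℕ → ℝ) (hy0 : ∀ j, 0 ≤ y j) (hy1 : ∀ j, y j ≤ 1) (m : ℝ)
    (hm : 0 < m) :
    ∑ j ∈ Finset.range K, (2 : ℝ) ^ j *
      (log (1 - y j ^ 2 + m / (4 * 2 ^ j) * y j) + 39 / 50 * y j ^ 2) ≤ m := by
  have h : ∀ j ∈ Finset.range K, (2 : ℝ) ^ j *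
      (log (1 - y j ^ 2 + m / (4 * 2 ^ j) * y j) + 39 / 50 * y j ^ 2)
      ≤ m / 4 * (Th (m / (4 * 2 ^ j)) - Th (m / (4 * 2 ^ (j + 1)))) := by
    intro j _
    have hk := key (m / (4 * 2 ^ j)) (y j) (by positivity) (hy0 j) (hy1 j)
    have e1 : m / (4 * 2 ^ j) / 2 = m / (4 * 2 ^ (j + 1)) := by
      rw [pow_succ]; field_simp
    rw [e1] at hk
    have := mul_le_mul_of_nonneg_left hk (by positivity : (0:ℝ) ≤ 2 ^ j)
    refine this.trans (le_of_eq ?_)
    field_simp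
  refine (Finset.sum_le_sum h).trans ?_
  rw [← Finset.mul_sum, Finset.sum_range_sub']
  have h1 := Th_le (m / (4 * 2 ^ 0)) (by positivity)
  have h2 := Th_nonneg (m / (4 * 2 ^ K)) (by positivity)
  nlinarith

end Pool.Agent.LitCon
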