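import Pool.Agent.Lib_MP_25630e_an.Pot

/-!
# MP_25630e_an: pointwise choice of the moduli, and a continuous selection
-/

set_option autoImplicit false

namespace Pool.Agent.LitCon

open Real Finset

/-- The functional bounded below by Jensen's inequality. -/
noncomputable def gain (K : ℕ) (y v : ℕ → ℝ) : ℝ :=
  ∑ j ∈ range K, (2 : ℝ) ^ j * (1 - v j - (1 - y j ^ 2) * exp (-v j))

/-- The sup norm constraint. -/
noncomputable def cons (K : ℕ) (y v : ℕ → ℝ) : ℝ :=
  1 / 4 * ∑ j ∈ range K, y j * exp (-v j)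

/-- The energy. -/
noncomputable def energy (K : ℕ) (y : ℕ → ℝ) : ℝ :=
  39 / 50 * ∑ j ∈ range K, (2 : ℝ) ^ j * y j ^ 2

lemma q_pos (j : ℕ) (y m : ℝ) (hy0 : 0 ≤ y) (hy1 : y ≤ 1) (hm : 0 < m) :
    0 < 1 - y ^ 2 + m / (4 * 2 ^ j) * y := by
  have : 0 < m / (4 * 2 ^ j) := by positivity
  rcases eq_or_lt_of_le hy1 with h | h
  · subst h; linarith
  · nlinarith [mul_nonneg this.le hy0]

lemma exists_mult (K : ℕ) (y : ℕ → ℝ) (hy0 : ∀ j, 0 ≤ y j) (hy1 : ∀ j, y j ≤ 1) (e : ℝ)
    (he : 0 < e) :
    ∃ m : ℝ, 0 < m ∧ 1 / 4 * ∑ j ∈ range K, y j / (1 - y j ^ 2 + m / (4 * 2 ^ j) * y j) ≤ 1 ∧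
      m - e ≤ m * (1 / 4 * ∑ j ∈ range K, y j / (1 - y j ^ 2 + m / (4 * 2 ^ j) * y j)) := by
  set S : ℝ → ℝ := fun m => 1 / 4 * ∑ j ∈ range K, y j / (1 - y j ^ 2 + m / (4 * 2 ^ j) * y j)
    with hS
  by_cases h1 : S e ≤ 1
  · refine ⟨e, he, h1, ?_⟩
    have : 0 ≤ S e := by
      rw [hS]
      refine mul_nonneg (by norm_num) (Finset.sum_nonneg fun j _ => ?_)
      exact div_nonneg (hy0 j) (q_pos j _ _ (hy0 j) (hy1 j) he).le
    have := mul_nonneg he.le this
    simp only [hS] at this
    linarith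
  · push Not at h1
    set M : ℝ := max e (2 ^ K) with hM
    have hMe : e ≤ M := le_max_left _ _
    have hM0 : 0 < M := lt_of_lt_of_le he hMe
    have hSM : S M ≤ 1 := by
      have hterm : ∀ j ∈ range K, y j / (1 - y j ^ 2 + M / (4 * 2 ^ j) * y j) ≤ 4 * 2 ^ j / M := by
        intro j _
        have hq := q_pos j _ _ (hy0 j) (hy1 j) hM0
        rw [div_le_div_iff₀ hq hM0]
        have h2 : (4 * 2 ^ j) * (M / (4 * 2 ^ j) * y j) = M * y j := by field_simp
        have h3 : 0 ≤ (4 * (2:ℝ) ^ j) * (1 - y j ^ 2) := by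
          refine mul_nonneg (by positivity) ?_
          nlinarith [hy0 j, hy1 j]
        nlinarith
      have hsum := Finset.sum_le_sum hterm
      have h4 : ∑ j ∈ range K, 4 * (2:ℝ) ^ j / M = 4 * (2 ^ K - 1) / M := by
        rw [← Finset.sum_div, ← Finset.mul_sum, geom_sum_eq (by norm_num)]
        norm_num
      rw [h4] at hsum
      have h5 : 4 * ((2:ℝ) ^ K - 1) / M ≤ 4 := by
        rw [div_le_iff₀ hM0]
        have : (2:ℝ) ^ K ≤ M := le_max_right _ _
        linarith
      simp only [hS]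
      linarith
    have hcont : ContinuousOn S (Set.Icc e M) := by
      rw [hS]
      refine ContinuousOn.mul continuousOn_const (continuousOn_finsetSum _ fun j _ => ?_)
      refine ContinuousOn.div continuousOn_const ?_ ?_
      · fun_prop
      · intro m hm
        exact (q_pos j _ _ (hy0 j) (hy1 j) (lt_of_lt_of_le he hm.1)).ne'
    obtain ⟨m, hm, hm1⟩ : ∃ m ∈ Set.Icc e M, S m = 1 := by
      have := intermediate_value_Icc' hMe hcont
      exact this ⟨hSM, h1.le⟩
    refine ⟨m, lt_of_lt_of_le he hm.1, hm1.le, ?_⟩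
    change m - e ≤ m * S m
    rw [hm1]; linarith

/-- Pointwise choice. -/
theorem exists_point (K : ℕ) (y : ℕ → ℝ) (hy0 : ∀ j, 0 ≤ y j) (hy1 : ∀ j, y j ≤ 1) (e : ℝ)
    (he : 0 < e) : ∃ v : ℕ → ℝ, cons K y v ≤ 1 ∧ energy K y - e ≤ gain K y v := by
  obtain ⟨m, hm, h1, h2⟩ := exists_mult K y hy0 hy1 e he
  have hq := fun j => q_pos j _ _ (hy0 j) (hy1 j) hm
  refine ⟨fun j => log (1 - y j ^ 2 + m / (4 * 2 ^ j) * y j), ?_, ?_⟩
  · unfold cons
    refine le_trans (le_of_eq ?_) h1
    congr 1
    refine Finset.sum_congr rfl fun j _ => ?_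
    rw [Real.exp_neg, Real.exp_log (hq j)]; rfl
  · have hk := sum_key K y hy0 hy1 m hm
    have e1 : gain K y (fun j => log (1 - y j ^ 2 + m / (4 * 2 ^ j) * y j))
        = m * (1 / 4 * ∑ j ∈ range K, y j / (1 - y j ^ 2 + m / (4 * 2 ^ j) * y j))
          - ∑ j ∈ range K, (2:ℝ) ^ j * log (1 - y j ^ 2 + m / (4 * 2 ^ j) * y j) := by
      unfold gain
      rw [← mul_assoc, Finset.mul_sum, ← Finset.sum_sub_distrib]
      refine Finset.sum_congr rfl fun j _ => ?_
      rw [Real.exp_neg, Real.exp_log (hq j)]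
      have h3 := (hq j).ne'
      have h4 : (1 - y j ^ 2) * (1 - y j ^ 2 + m / (4 * 2 ^ j) * y j)⁻¹
          = 1 - (m / (4 * 2 ^ j) * y j) / (1 - y j ^ 2 + m / (4 * 2 ^ j) * y j) := by
        rw [eq_sub_iff_add_eq, ← div_eq_mul_inv, ← add_div, div_self h3]
      rw [h4]
      have h5 : (2:ℝ) ^ j * ((m / (4 * 2 ^ j) * y j) / (1 - y j ^ 2 + m / (4 * 2 ^ j) * y j))
          = m * (1 / 4) * (y j / (1 - y j ^ 2 + m / (4 * 2 ^ j) * y j)) := by
        have h6 : (2:ℝ) ^ j * (m / (4 * 2 ^ j)) = m * (1 / 4) := by field_simp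
        rw [mul_div_assoc', ← mul_assoc, h6, mul_div_assoc]
      linear_combination h5
    rw [e1]
    unfold energy
    have e2 : ∑ j ∈ range K, (2 : ℝ) ^ j *
      (log (1 - y j ^ 2 + m / (4 * 2 ^ j) * y j) + 39 / 50 * y j ^ 2)
      = ∑ j ∈ range K, (2:ℝ) ^ j * log (1 - y j ^ 2 + m / (4 * 2 ^ j) * y j)
        + 39 / 50 * ∑ j ∈ range K, (2 : ℝ) ^ j * y j ^ 2 := by
      rw [Finset.mul_sum, ← Finset.sum_add_distrib]
      refine Finset.sum_congr rfl fun j _ => ?_
      ring
    rw [e2] at hk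
    linarith

lemma exp_neg_comb (a b v w : ℝ) (ha : 0 ≤ a) (hb : 0 ≤ b) (hab : a + b = 1) :
    exp (-(a * v + b * w)) ≤ a * exp (-v) + b * exp (-w) := by
  have := convexOn_exp.2 (Set.mem_univ (-v)) (Set.mem_univ (-w)) ha hb hab
  simp only [smul_eq_mul] at this
  refine le_trans (le_of_eq ?_) this
  congr 1; ring

/-- Continuous selection. -/
theorem exists_cont {X : Type*} [TopologicalSpace X] [NormalSpace X] [ParacompactSpace X]
    (K : ℕ) (y : ℕ → X → ℝ) (hy : ∀ j, Continuous (y j))
    (hy0 : ∀ j x, 0 ≤ y j x) (hy1 : ∀ j x, y j x ≤ 1) (e : ℝ) (he : 0 < e) :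
    ∃ v : ℕ → C(X, ℝ), ∀ x, cons K (fun j => y j x) (fun j => v j x) < 1 + e ∧
      energy K (fun j => y j x) - e < gain K (fun j => y j x) (fun j => v j x) := by
  set t : X → Set (ℕ → ℝ) := fun x => {v | cons K (fun j => y j x) v < 1 + e ∧
      energy K (fun j => y j x) - e < gain K (fun j => y j x) v} with ht
  have hconv : ∀ x, Convex ℝ (t x) := by
    intro x v hv w hw a b ha hb hab
    refine ⟨?_, ?_⟩
    · have h1 : cons K (fun j => y j x) (a • v + b • w)
          ≤ a * cons K (fun j => y j x) v + b * cons K (fun j => y j x) w := by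
        unfold cons
        have : ∑ j ∈ range K, y j x * exp (-(a • v + b • w) j)
            ≤ a * ∑ j ∈ range K, y j x * exp (-v j) + b * ∑ j ∈ range K, y j x * exp (-w j) := by
          rw [Finset.mul_sum, Finset.mul_sum, ← Finset.sum_add_distrib]
          refine Finset.sum_le_sum fun j _ => ?_
          have h2 := exp_neg_comb a b (v j) (w j) ha hb hab
          simp only [Pi.add_apply, Pi.smul_apply, smul_eq_mul]
          nlinarith [mul_le_mul_of_nonneg_left h2 (hy0 j x)]
        linarith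
      have h3 := hv.1
      have h4 := hw.1
      rcases eq_or_lt_of_le ha with h | h
      · subst h
        have : b = 1 := by linarith
        subst this
        linarith
      · nlinarith
    · have h1 : a * gain K (fun j => y j x) v + b * gain K (fun j => y j x) w
          ≤ gain K (fun j => y j x) (a • v + b • w) := by
        unfold gain
        rw [Finset.mul_sum, Finset.mul_sum, ← Finset.sum_add_distrib]
        refine Finset.sum_le_sum fun j _ => ?_
        have h2 := exp_neg_comb a b (v j) (w j) ha hb hab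
        simp only [Pi.add_apply, Pi.smul_apply, smul_eq_mul]
        have h3 : 0 ≤ 1 - y j x ^ 2 := by nlinarith [hy0 j x, hy1 j x]
        have h4 := mul_le_mul_of_nonneg_left h2 h3
        have h5 : a * ((2:ℝ) ^ j * (1 - v j - (1 - y j x ^ 2) * exp (-v j)))
            + b * ((2:ℝ) ^ j * (1 - w j - (1 - y j x ^ 2) * exp (-w j)))
            = (2:ℝ) ^ j * ((a + b) - (a * v j + b * w j)
              - (1 - y j x ^ 2) * (a * exp (-v j) + b * exp (-w j))) := by ring
        rw [h5, hab]
        refine mul_le_mul_of_nonneg_left ?_ (by positivity)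
        linarith
      have h3 := hv.2
      have h4 := hw.2
      refine lt_of_lt_of_le ?_ h1
      set E := energy K (fun j => y j x) - e
      rcases eq_or_lt_of_le ha with h | h
      · subst h
        have : b = 1 := by linarith
        subst this
        linarith
      · have h5 := mul_lt_mul_of_pos_left h3 h
        have h6 := mul_le_mul_of_nonneg_left h4.le hb
        have h7 : a * E + b * E = E := by rw [← add_mul, hab, one_mul]
        linarith
  have hloc : ∀ x : X, ∃ c : ℕ → ℝ, ∀ᶠ x' in nhds x, c ∈ t x' := by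
    intro x
    obtain ⟨v, hv1, hv2⟩ := exists_point K (fun j => y j x) (fun j => hy0 j x) (fun j => hy1 j x)
      (e / 2) (by linarith)
    refine ⟨v, ?_⟩
    have c1 : Continuous (fun x' => cons K (fun j => y j x') v) := by
      unfold cons
      fun_prop
    have c2 : Continuous (fun x' => gain K (fun j => y j x') v - energy K (fun j => y j x')) := by
      unfold gain energy
      fun_prop
    have e1 := c1.continuousAt.eventually_lt (continuousAt_const (y := 1 + e)) (x₀ := x)
      (by simpa using lt_of_le_of_lt hv1 (by linarith))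
    have e2 := (continuousAt_const (y := -e)).eventually_lt c2.continuousAt (x₀ := x)
      (by linarith)
    filter_upwards [e1, e2] with x' h1 h2
    exact ⟨h1, by linarith⟩
  obtain ⟨g, hg⟩ := exists_continuous_forall_mem_convex_of_local_const hconv hloc
  exact ⟨fun j => ⟨fun x => g x j, by fun_prop⟩, fun x => hg x⟩

end Pool.Agent.LitCon
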